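import Pool.Agent.Lib.MP_bdd006_gt.Homeo

/-!
A space that is a countable intersection of sigma-compact sets in some compact Hausdorff space
has the same form in its Stone-Cech compactification.
-/

namespace Pool.Agent.Lib.MP_bdd006_gt

open Set Topology

universe u v

/-- The extension of an embedding to the Stone-Cech compactification sends the remainder to the
complement of the image. -/
lemma preimage_range_beta {Z : Type v} [TopologicalSpace Z] {K : Type u} [TopologicalSpace K]
    [CompactSpace K] [T2Space K] {e : Z → K} (he : IsEmbedding e) :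
    stoneCechExtend he.continuous ⁻¹' range e = range (stoneCechUnit : Z → StoneCech Z) := by
  have hF : ∀ z, stoneCechExtend he.continuous (stoneCechUnit z) = e z := fun z =>
    congrFun (stoneCechExtend_extends he.continuous) z
  ext p
  constructor
  · rintro ⟨y, hy⟩
    by_contra hp
    have hne : stoneCechUnit y ≠ p := fun h => hp ⟨y, h⟩
    obtain ⟨U, V, hU, hV, hyU, hpV, hUV⟩ := t2_separation hne
    obtain ⟨O, hO, hOU⟩ := he.isInducing.isOpen_iff.1 (hU.preimage continuous_stoneCechUnit)
    have hyO : e y ∈ O := by
      have : y ∈ e ⁻¹' O := hOU ▸ hyU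
      exact this
    obtain ⟨z, hz⟩ := denseRange_stoneCechUnit.exists_mem_open
      ((hO.preimage (continuous_stoneCechExtend he.continuous)).inter hV)
      ⟨p, by rw [mem_preimage, ← hy]; exact hyO, hpV⟩
    have h1 : z ∈ e ⁻¹' O := by
      have := hz.1
      rwa [mem_preimage, hF] at this
    rw [hOU] at h1
    exact disjoint_left.1 hUV h1 hz.2
  · rintro ⟨y, rfl⟩
    exact ⟨y, (hF y).symm⟩

lemma beta_of_ksd {Z : Type v} [TopologicalSpace Z] {K : Type u} [TopologicalSpace K]
    [CompactSpace K] [T2Space K] {e : Z → K} (he : IsEmbedding e) {A : ℕ → Set K}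
    (hA : ∀ n, IsSigmaCompact (A n)) (hr : range e = ⋂ n, A n) :
    ∃ C : ℕ → ℕ → Set (StoneCech Z), (∀ n m, IsCompact (C n m)) ∧
      range (stoneCechUnit : Z → StoneCech Z) = ⋂ n, ⋃ m, C n m := by
  choose C hC hCA using hA
  refine ⟨fun n m => stoneCechExtend he.continuous ⁻¹' C n m, fun n m =>
    ((hC n m).isClosed.preimage (continuous_stoneCechExtend he.continuous)).isCompact, ?_⟩
  rw [← preimage_range_beta he, hr, preimage_iInter]
  exact iInter_congr fun n => by rw [← hCA n, preimage_iUnion]

end Pool.Agent.Lib.MP_bdd006_gt
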