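import Pool.Agent.Lib.MP_bdd006_gt.Sig

/-!
The guided extension formula and the shift along a continuously varying direction, both in a
purely numerical form.
-/

set_option autoImplicit false

namespace Pool.Agent.Lib.MP_bdd006_gt

open Filter Topology Set

noncomputable def ph (t : ℝ) : ℝ := max 0 (min 1 (2 * t - 1))

lemma ph_one : ph 1 = 1 := by norm_num [ph]

lemma ph_eq_zero {t : ℝ} (h : t ≤ 1 / 2) : ph t = 0 :=
  max_eq_left ((min_le_right _ _).trans (by linarith))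

lemma continuous_ph : Continuous ph := by unfold ph; fun_prop

lemma ph_div_eq_zero {a g0 : ℝ} (h0 : 0 < g0) (h : a ≤ g0 / 2) : ph (a / g0) = 0 :=
  ph_eq_zero (by rw [div_le_iff₀ h0]; linarith)

/-- The cutoff attached to column `k`. -/
noncomputable def chi (g0 : ℝ) (gb : ℕ → ℝ) (ge : ℝ) (k : ℕ) : ℝ :=
  ph (ge / g0) * ∏ j ∈ Finset.range (k + 1), ph (gb j / g0)

lemma chi_eq_zero_of_gb {g0 : ℝ} {gb : ℕ → ℝ} (ge : ℝ) {j k : ℕ} (h0 : 0 < g0)
    (h : gb j ≤ g0 / 2) (hjk : j ≤ k) : chi g0 gb ge k = 0 := by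
  unfold chi
  rw [Finset.prod_eq_zero (i := j) (Finset.mem_range.mpr (by omega)) (ph_div_eq_zero h0 h),
    mul_zero]

lemma chi_eq_zero_of_ge {g0 : ℝ} (gb : ℕ → ℝ) {ge : ℝ} (k : ℕ) (h0 : 0 < g0)
    (h : ge ≤ g0 / 2) : chi g0 gb ge k = 0 := by
  unfold chi
  rw [ph_div_eq_zero h0 h, zero_mul]

lemma chi_zero (g0 : ℝ) (gb : ℕ → ℝ) (k : ℕ) : chi g0 gb 0 k = 0 := by
  unfold chi
  rw [zero_div, ph_eq_zero (by norm_num), zero_mul]

lemma chi_eq_one {g0 : ℝ} {gb : ℕ → ℝ} {k : ℕ} (h0 : 0 < g0) (h : ∀ j, j ≤ k → gb j = g0) :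
    chi g0 gb g0 k = 1 := by
  unfold chi
  rw [div_self h0.ne', ph_one, one_mul]
  refine Finset.prod_eq_one (fun j hj => ?_)
  rw [h j (by have := Finset.mem_range.mp hj; omega), div_self h0.ne', ph_one]

/-- The guided extension. -/
noncomputable def gext (g0 : ℝ) (gb ge Δ : ℕ → ℝ) : ℝ := ∑ᶠ k, chi g0 gb (ge k) k * Δ k

lemma gext_eq_sum {g0 : ℝ} {gb : ℕ → ℝ} (ge Δ : ℕ → ℝ) {j : ℕ} (h0 : 0 < g0)
    (h : gb j ≤ g0 / 2) :
    gext g0 gb ge Δ = ∑ k ∈ Finset.range j, chi g0 gb (ge k) k * Δ k := by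
  unfold gext
  refine finsum_eq_sum_of_support_subset _ (fun k hk => ?_)
  rw [Finset.mem_coe, Finset.mem_range]
  by_contra hc
  exact hk (by simp only [chi_eq_zero_of_gb (ge k) h0 h (not_lt.mp hc), zero_mul])

lemma gext_neg (g0 : ℝ) (gb : ℕ → ℝ) {ge Δ Δ' : ℕ → ℝ} (h : ∀ k, ge k ≠ 0 → Δ' k = -Δ k) :
    gext g0 gb ge Δ' = -gext g0 gb ge Δ := by
  unfold gext
  rw [← finsum_neg_distrib]
  refine finsum_congr (fun k => ?_)
  by_cases hk : ge k = 0
  · rw [hk, chi_zero]; simp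
  · rw [h k hk]; ring

lemma gext_single {g0 : ℝ} {gb ge Δ : ℕ → ℝ} {k : ℕ} (h0 : 0 < g0)
    (h : ∀ j, j ≤ k → gb j = g0) (hk : ge k = g0) (hΔ : ∀ l, l ≠ k → Δ l = 0) :
    gext g0 gb ge Δ = Δ k := by
  unfold gext
  rw [finsum_eq_single _ k (fun l hl => by rw [hΔ l hl, mul_zero]), hk, chi_eq_one h0 h, one_mul]

section cont
variable {Z : Type*} [TopologicalSpace Z] {z0 : Z}

lemma continuousAt_chi {g0 : Z → ℝ} {gb : Z → ℕ → ℝ} {ge : Z → ℝ} (k : ℕ)
    (h0 : ContinuousAt g0 z0) (hb : ∀ j, ContinuousAt (fun z => gb z j) z0)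
    (he : ContinuousAt ge z0) (hpos : 0 < g0 z0) :
    ContinuousAt (fun z => chi (g0 z) (gb z) (ge z) k) z0 := by
  unfold chi
  refine (continuous_ph.continuousAt.comp (he.div h0 hpos.ne')).mul ?_
  exact tendsto_finsetProd _ (fun j _ =>
    continuous_ph.continuousAt.comp ((hb j).div h0 hpos.ne'))

lemma eventually_le_half {a g0 : Z → ℝ} (ha : ContinuousAt a z0) (h0 : ContinuousAt g0 z0)
    (h : a z0 < g0 z0 / 2) : ∀ᶠ z in 𝓝 z0, a z ≤ g0 z / 2 := by
  have h1 : ContinuousAt (fun z => g0 z / 2 - a z) z0 := (h0.div_const 2).sub ha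
  filter_upwards [h1.eventually (lt_mem_nhds (show (0 : ℝ) < g0 z0 / 2 - a z0 by linarith))]
    with z hz
  linarith

lemma continuousAt_gext {g0 : Z → ℝ} {gb ge Δ : Z → ℕ → ℝ}
    (h0 : ContinuousAt g0 z0) (hb : ∀ j, ContinuousAt (fun z => gb z j) z0)
    (he : ∀ k, ContinuousAt (fun z => ge z k) z0) (hpos : 0 < g0 z0)
    (hlim : Tendsto (gb z0) atTop (𝓝 0))
    (hΔ : ∀ k, 0 < ge z0 k → ContinuousAt (fun z => Δ z k) z0) :
    ContinuousAt (fun z => gext (g0 z) (gb z) (ge z) (Δ z)) z0 := by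
  obtain ⟨j, hj⟩ := (hlim.eventually (gt_mem_nhds (half_pos hpos))).exists
  have e0 : ∀ᶠ z in 𝓝 z0, 0 < g0 z := h0.eventually (lt_mem_nhds hpos)
  have h1 : ContinuousAt
      (fun z => ∑ k ∈ Finset.range j, chi (g0 z) (gb z) (ge z k) k * Δ z k) z0 := by
    refine tendsto_finsetSum _ (fun k _ => ?_)
    by_cases hk : 0 < ge z0 k
    · exact (continuousAt_chi k h0 hb (he k) hpos).mul (hΔ k hk)
    · refine ContinuousAt.congr (f := fun _ => (0 : ℝ)) continuousAt_const ?_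
      filter_upwards [e0, eventually_le_half (he k) h0
        (lt_of_le_of_lt (not_lt.mp hk) (half_pos hpos))] with z hz hz'
      rw [chi_eq_zero_of_ge _ k hz hz', zero_mul]
  refine h1.congr ?_
  filter_upwards [e0, eventually_le_half (hb j) h0 hj] with z hz hz'
  exact (gext_eq_sum _ _ hz hz').symm

lemma continuousAt_tr_bt (n : ℕ) {g t : Z → ℝ} (hg : ContinuousAt g z0) (h0 : 0 ≤ g z0)
    (ht : 0 < g z0 → ContinuousAt t z0) :
    ContinuousAt (fun z => tr (bt n (g z)) (t z)) z0 := by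
  have h1 : ContinuousAt (fun z => bt n (g z)) z0 := (continuous_bt n).continuousAt.comp hg
  rcases h0.lt_or_eq with h | h
  · exact continuousAt_tr h1 (ht h) (abs_mul_sg_lt (bt_nonneg n h0) (bt_le_one n _) _)
  · exact continuousAt_tr_zero h1 (by rw [← h, bt_zero])

lemma continuousAt_tr_bt_inv (n : ℕ) {g t : Z → ℝ} (hg : ContinuousAt g z0) (h0 : 0 < g z0)
    (ht : ContinuousAt t z0) (ha : Adm n (g z0) (t z0)) :
    ContinuousAt (fun z => tr (bt n (g z))⁻¹ (t z)) z0 :=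
  continuousAt_tr_inv ((continuous_bt n).continuousAt.comp hg) ht (bt_pos n h0) (ha.lt h0)

end cont

/-- The least guide value among the blocks up to `N`. -/
noncomputable def mn (N : ℕ) (γ : ℕ → ℝ) : ℝ :=
  (Finset.range (N + 1)).inf' Finset.nonempty_range_add_one γ

lemma mn_le {N : ℕ} (γ : ℕ → ℝ) {i : ℕ} (h : i ≤ N) : mn N γ ≤ γ i :=
  Finset.inf'_le _ (Finset.mem_range.mpr (by omega))

lemma exists_mn (N : ℕ) (γ : ℕ → ℝ) : ∃ i, i ≤ N ∧ mn N γ = γ i := by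
  obtain ⟨i, hi, h⟩ := Finset.exists_mem_eq_inf' (Finset.nonempty_range_add_one (n := N)) γ
  exact ⟨i, by have := Finset.mem_range.mp hi; omega, h⟩

lemma mn_nonneg (N : ℕ) {γ : ℕ → ℝ} (h : ∀ i, 0 ≤ γ i) : 0 ≤ mn N γ := by
  obtain ⟨i, -, hi⟩ := exists_mn N γ
  rw [hi]; exact h i

/-- The direction of the shift. -/
noncomputable def qq (N : ℕ) (γ : ℕ → ℝ) (i : ℕ) : ℝ := max 0 (2 * mn N γ - γ i)

/-- The component along the direction of the shift. -/
noncomputable def avg (N : ℕ) (γ : ℕ → ℝ) (a : ℕ → ℝ) : ℝ :=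
  (∑ i ∈ Finset.range (N + 1), qq N γ i * a i) /
    (∑ i ∈ Finset.range (N + 1), qq N γ i * qq N γ i)

lemma qq_eq_zero {N : ℕ} {γ : ℕ → ℝ} {i : ℕ} (h : 2 * mn N γ ≤ γ i) : qq N γ i = 0 :=
  max_eq_left (by linarith)

lemma sum_qq_pos {N : ℕ} {γ : ℕ → ℝ} (h : 0 < mn N γ) :
    0 < ∑ i ∈ Finset.range (N + 1), qq N γ i * qq N γ i := by
  obtain ⟨i, hi, h1⟩ := exists_mn N γ
  refine Finset.sum_pos' (fun j _ => mul_self_nonneg _)
    ⟨i, Finset.mem_range.mpr (by omega), ?_⟩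
  have : 0 < qq N γ i := lt_max_of_lt_right (by linarith)
  positivity

lemma avg_shift {N : ℕ} {γ : ℕ → ℝ} (h : 0 < mn N γ) {a b : ℕ → ℝ} {c : ℝ}
    (hb : ∀ i, i ≤ N → b i = a i + c * qq N γ i) : avg N γ b = avg N γ a + c := by
  have h1 := sum_qq_pos h
  unfold avg
  have h2 : ∑ i ∈ Finset.range (N + 1), qq N γ i * b i =
      ∑ i ∈ Finset.range (N + 1), qq N γ i * a i +
        c * ∑ i ∈ Finset.range (N + 1), qq N γ i * qq N γ i := by
    rw [Finset.mul_sum, ← Finset.sum_add_distrib]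
    refine Finset.sum_congr rfl (fun i hi => ?_)
    rw [hb i (by have := Finset.mem_range.mp hi; omega)]
    ring
  rw [h2, add_div, mul_div_assoc, div_self h1.ne', mul_one]

/-- The sequence of components in the forward shift. -/
noncomputable def sF (N : ℕ) (γ : ℕ → ℝ) (a : ℕ → ℕ → ℝ) (u : ℝ) : ℕ → ℝ
  | 0 => tr (bt 0 (mn N γ))⁻¹ u
  | n + 1 => avg N γ (a (n + 1))

/-- New boundary values in the forward direction. -/
noncomputable def cF (N : ℕ) (γ : ℕ → ℝ) (a : ℕ → ℕ → ℝ) (u : ℝ) (n i : ℕ) : ℝ :=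
  a (n + 1) i + (sF N γ a u n - sF N γ a u (n + 1)) * qq N γ i

/-- The common value in the backward direction. -/
noncomputable def uB (N : ℕ) (γ : ℕ → ℝ) (b : ℕ → ℕ → ℝ) : ℝ :=
  tr (bt 0 (mn N γ)) (avg N γ (b 0))

/-- New boundary values in the backward direction. -/
noncomputable def cB (N : ℕ) (γ : ℕ → ℝ) (b : ℕ → ℕ → ℝ) : ℕ → ℕ → ℝ
  | 0, i => tr (bt 0 (γ i))⁻¹ (uB N γ b)
  | n + 1, i => b n i + (avg N γ (b (n + 1)) - avg N γ (b n)) * qq N γ i

lemma adm_uB {N : ℕ} {γ : ℕ → ℝ} (h0 : ∀ i, 0 ≤ γ i) (b : ℕ → ℕ → ℝ) {i : ℕ} (hi : i ≤ N) :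
    Adm 0 (γ i) (uB N γ b) := by
  rcases adm_tr 0 (mn_nonneg N h0) (avg N γ (b 0)) with h | h
  · exact Or.inl (h.trans_le (bt_mono 0 (mn_le γ hi)))
  · exact Or.inr h

lemma back_forth {N : ℕ} {γ : ℕ → ℝ} (h0 : ∀ i, 0 ≤ γ i) {a b : ℕ → ℕ → ℝ} {u : ℝ}
    (hu : ∀ i, i ≤ N → Adm 0 (γ i) u)
    (hb : ∀ n i, i ≤ N → 0 < γ i → b n i = cF N γ a u n i) :
    uB N γ b = u ∧ ∀ n i, i ≤ N → 0 < γ i → cB N γ b (n + 1) i = a (n + 1) i := by
  obtain ⟨i0, hi0, hm⟩ := exists_mn N γ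
  rcases (mn_nonneg N h0).lt_or_eq with h | h
  · have h1 : ∀ n, avg N γ (b n) = sF N γ a u n := by
      intro n
      rw [avg_shift h (a := a (n + 1)) (c := sF N γ a u n - sF N γ a u (n + 1))
        (fun i hi => hb n i hi (h.trans_le (mn_le γ hi)))]
      simp only [sF]; ring
    refine ⟨?_, fun n i hi hγ => ?_⟩
    · rw [uB, h1 0]
      simp only [sF]
      refine tr_tr_inv (bt_pos 0 h) ?_
      rw [hm]
      exact (hu i0 hi0).lt (hm ▸ h)
    · simp only [cB]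
      rw [h1, h1, hb n i hi hγ, cF]; ring
  · have hq : ∀ i, qq N γ i = 0 := fun i => qq_eq_zero (by rw [← h]; linarith [h0 i])
    refine ⟨?_, fun n i hi hγ => ?_⟩
    · rw [uB, ← h, bt_zero, tr_zero_left]
      have h2 := hu i0 hi0
      rw [← hm, ← h] at h2
      exact h2.eq_zero.symm
    · simp only [cB]
      rw [hb n i hi hγ, cF, hq]; ring

lemma forth_back {N : ℕ} {γ : ℕ → ℝ} (h0 : ∀ i, 0 ≤ γ i) {a b : ℕ → ℕ → ℝ}
    (ha : ∀ n i, i ≤ N → 0 < γ i → a n i = cB N γ b n i) :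
    ∀ n i, i ≤ N → 0 < γ i → cF N γ a (uB N γ b) n i = b n i := by
  intro n i hi hγ
  rcases (mn_nonneg N h0).lt_or_eq with h | h
  · have h1 : ∀ n, sF N γ a (uB N γ b) n = avg N γ (b n) := by
      intro n
      cases n with
      | zero =>
        simp only [sF, uB]
        exact tr_inv_tr (bt_pos 0 h) (bt_le_one _ _) _
      | succ n =>
        simp only [sF]
        rw [avg_shift h (a := b n) (c := avg N γ (b (n + 1)) - avg N γ (b n))
          (fun i hi => ha (n + 1) i hi (h.trans_le (mn_le γ hi)))]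
        ring
    rw [cF, h1, h1, ha (n + 1) i hi hγ]
    simp only [cB]; ring
  · have hq : qq N γ i = 0 := qq_eq_zero (by rw [← h]; linarith [h0 i])
    rw [cF, ha (n + 1) i hi hγ]
    simp only [cB]
    rw [hq]; ring

section cont2
variable {Z : Type*} [TopologicalSpace Z] {z0 : Z} {N : ℕ} {γ : Z → ℕ → ℝ}

lemma continuousAt_mn (hγ : ∀ i, ContinuousAt (fun z => γ z i) z0) :
    ContinuousAt (fun z => mn N (γ z)) z0 := by
  unfold mn
  exact ContinuousAt.finset_inf'_apply (f := fun i z => γ z i) _ (fun i _ => hγ i)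

lemma continuousAt_qq (hγ : ∀ i, ContinuousAt (fun z => γ z i) z0) (i : ℕ) :
    ContinuousAt (fun z => qq N (γ z) i) z0 := by
  unfold qq
  exact continuousAt_const.max ((continuousAt_const.mul (continuousAt_mn hγ)).sub (hγ i))

lemma continuousAt_avg (hγ : ∀ i, ContinuousAt (fun z => γ z i) z0) (hm : 0 < mn N (γ z0))
    {a : Z → ℕ → ℝ} (ha : ∀ i, i ≤ N → ContinuousAt (fun z => a z i) z0) :
    ContinuousAt (fun z => avg N (γ z) (a z)) z0 := by
  unfold avg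
  refine ContinuousAt.div ?_ ?_ (sum_qq_pos hm).ne'
  · exact tendsto_finsetSum _ (fun i hi => (continuousAt_qq hγ i).mul
      (ha i (by have := Finset.mem_range.mp hi; omega)))
  · exact tendsto_finsetSum _ (fun i _ => (continuousAt_qq hγ i).mul (continuousAt_qq hγ i))

lemma eventually_qq_zero (hγ : ∀ i, ContinuousAt (fun z => γ z i) z0) (hm : mn N (γ z0) = 0)
    {i : ℕ} (hi : 0 < γ z0 i) : ∀ᶠ z in 𝓝 z0, qq N (γ z) i = 0 := by
  filter_upwards [eventually_le_half (continuousAt_mn (N := N) hγ) (hγ i)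
    (by rw [hm]; linarith)] with z hz
  exact qq_eq_zero (by linarith)

lemma continuousAt_cF (hγ : ∀ i, ContinuousAt (fun z => γ z i) z0) (h0 : ∀ i, 0 ≤ γ z0 i)
    {a : Z → ℕ → ℕ → ℝ} {u : Z → ℝ}
    (ha : ∀ n i, i ≤ N → 0 < γ z0 i → ContinuousAt (fun z => a z n i) z0)
    (hu : ContinuousAt u z0) (hadm : ∀ i, i ≤ N → Adm 0 (γ z0 i) (u z0))
    (n : ℕ) {i : ℕ} (hi : i ≤ N) (hγi : 0 < γ z0 i) :
    ContinuousAt (fun z => cF N (γ z) (a z) (u z) n i) z0 := by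
  rcases (mn_nonneg N h0).lt_or_eq with h | h
  · have h1 : ∀ n, ContinuousAt (fun z => sF N (γ z) (a z) (u z) n) z0 := by
      intro n
      cases n with
      | zero =>
        simp only [sF]
        obtain ⟨i0, hi0, hm⟩ := exists_mn N (γ z0)
        exact continuousAt_tr_bt_inv 0 (continuousAt_mn hγ) h hu (by rw [hm]; exact hadm i0 hi0)
      | succ n =>
        simp only [sF]
        exact continuousAt_avg hγ h (fun j hj => ha _ j hj (h.trans_le (mn_le _ hj)))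
    unfold cF
    exact (ha _ i hi hγi).add (((h1 n).sub (h1 (n + 1))).mul (continuousAt_qq hγ i))
  · refine (ha (n + 1) i hi hγi).congr ?_
    filter_upwards [eventually_qq_zero hγ h.symm hγi] with z hz
    rw [cF, hz]; ring

lemma continuousAt_cB (hγ : ∀ i, ContinuousAt (fun z => γ z i) z0) (h0 : ∀ i, 0 ≤ γ z0 i)
    {b : Z → ℕ → ℕ → ℝ}
    (hb : ∀ n i, i ≤ N → 0 < γ z0 i → ContinuousAt (fun z => b z n i) z0)
    (n : ℕ) {i : ℕ} (hi : i ≤ N) (hγi : 0 < γ z0 i) :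
    ContinuousAt (fun z => cB N (γ z) (b z) n i) z0 := by
  cases n with
  | zero =>
    simp only [cB]
    refine continuousAt_tr_bt_inv 0 (hγ i) hγi ?_ (adm_uB h0 _ hi)
    unfold uB
    exact continuousAt_tr_bt 0 (continuousAt_mn hγ) (mn_nonneg N h0) (fun h =>
      continuousAt_avg hγ h (fun j hj => hb _ j hj (h.trans_le (mn_le _ hj))))
  | succ n =>
    simp only [cB]
    rcases (mn_nonneg N h0).lt_or_eq with h | h
    · have h1 : ∀ n, ContinuousAt (fun z => avg N (γ z) (b z n)) z0 := fun n =>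
        continuousAt_avg hγ h (fun j hj => hb _ j hj (h.trans_le (mn_le _ hj)))
      exact (hb _ i hi hγi).add (((h1 (n + 1)).sub (h1 n)).mul (continuousAt_qq hγ i))
    · refine (hb n i hi hγi).congr ?_
      filter_upwards [eventually_qq_zero hγ h.symm hγi] with z hz
      rw [hz]; ring

end cont2

end Pool.Agent.Lib.MP_bdd006_gt
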