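import Pool.Agent.Lib.MP_bdd006_gt.Space

/-!
The glued space `X`, the description of its continuous functions, and the proof that it is not
a countable intersection of sigma compact sets in any compact Hausdorff space.
-/

set_option autoImplicit false

namespace Pool.Agent.Lib.MP_bdd006_gt

open Filter Topology Set

/-- The boundary point of block `i` attached to `d`. -/
def bp (i : ℕ) (d : D) : W := ee (d.2.1 i) (A.iso d)

/-- Agreement at the glued boundary points. -/
def GlueD (g : Y → ℝ) : Prop :=
  ∀ (d : D) (i : ℕ), i ≤ d.1 → g ((i, Sum.inl 0), bp i d) = g ((0, Sum.inl 0), bp 0 d)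

/-- Agreement at the glued base points. -/
def GlueO (g : Y → ℝ) : Prop := ∀ i : ℕ, g ((i, Sum.inl 0), oo) = g ((0, Sum.inl 0), oo)

/-- Continuous functions on `Y` compatible with the gluing. -/
abbrev FX : Type := {g : Y → ℝ // Continuous g ∧ GlueD g ∧ GlueO g}

/-- Evaluation. -/
def ev (y : Y) : FX → ℝ := fun g => g.1 y

/-- The glued space. -/
abbrev X : Type := {x : FX → ℝ // x ∈ range ev}

/-- The gluing map. -/
def evX (y : Y) : X := ⟨ev y, mem_range_self y⟩

lemma continuous_evX : Continuous evX :=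
  Continuous.subtype_mk (continuous_pi (fun g : FX => g.2.1)) _

lemma surjective_evX : Function.Surjective evX := by
  rintro ⟨_, y, rfl⟩
  exact ⟨y, rfl⟩

lemma evX_bp {d : D} {i : ℕ} (h : i ≤ d.1) :
    evX ((i, Sum.inl 0), bp i d) = evX ((0, Sum.inl 0), bp 0 d) :=
  Subtype.ext (funext (fun g => g.2.2.1 d i h))

lemma evX_oo (i : ℕ) : evX ((i, Sum.inl 0), oo) = evX ((0, Sum.inl 0), oo) :=
  Subtype.ext (funext (fun g => g.2.2.2 i))

/-- Continuous functions on the glued space. -/
noncomputable def homeoX : {f : X → ℝ // Continuous f} ≃ₜ FX where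
  toFun f := ⟨fun y => f.1 (evX y), f.2.comp continuous_evX,
    fun d i h => by simp only [evX_bp h], fun i => by simp only [evX_oo i]⟩
  invFun g := ⟨fun x => x.1 g, (continuous_apply g).comp continuous_subtype_val⟩
  left_inv f := by
    apply Subtype.ext
    funext x
    obtain ⟨y, rfl⟩ := surjective_evX x
    rfl
  right_inv g := rfl
  continuous_toFun := by
    refine Continuous.subtype_mk (continuous_pi (fun y => ?_)) _
    exact (continuous_apply (evX y)).comp continuous_subtype_val
  continuous_invFun := by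
    refine Continuous.subtype_mk (continuous_pi (fun x => ?_)) _
    obtain ⟨y, rfl⟩ := surjective_evX x
    exact (continuous_apply y).comp continuous_subtype_val

lemma continuous_Y_iff {Z : Type} [TopologicalSpace Z] {g : Y → Z} :
    Continuous g ↔ ∀ p : I, Continuous (fun x : W => g (p, x)) := by
  constructor
  · intro h p
    exact h.comp (Continuous.prodMk_right p)
  · intro h
    exact continuous_prod_of_discrete_left.mpr h

lemma X_not_ksd : ¬ ∃ (K : Type) (_ : TopologicalSpace K) (_ : CompactSpace K) (_ : T2Space K)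
    (e : X → K), Topology.IsEmbedding e ∧
      ∃ C : ℕ → ℕ → Set K, (∀ n m, IsCompact (C n m)) ∧ Set.range e = ⋂ n, ⋃ m, C n m := by
  rintro ⟨K, _, _, _, e, he, C, hC, hr⟩
  classical
  have h1 : ∀ m, ∃ j, {d : D | e (evX ((m, Sum.inl 0), ee j (A.iso d))) ∉ C m j}.Countable := by
    intro m
    refine cover_cell (fun j => {x | e (evX ((m, Sum.inl 0), x)) ∈ C m j}) (fun j => ?_)
      (fun x => ?_)
    · exact (hC m j).isClosed.preimage
        (he.continuous.comp (continuous_evX.comp (Continuous.prodMk_right _)))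
    · have : e (evX ((m, Sum.inl 0), x)) ∈ ⋂ n, ⋃ m, C n m := hr ▸ mem_range_self _
      obtain ⟨j, hj⟩ := mem_iUnion.mp (mem_iInter.mp this m)
      exact ⟨j, hj⟩
  choose k hk using h1
  have h2 : ∀ n : ℕ, ∃ r : ℝ, ∀ m,
      e (evX ((m, Sum.inl 0), ee (k m) (A.iso (n, k, r)))) ∈ C m (k m) := by
    intro n
    by_contra hcon
    push Not at hcon
    have hc := countable_iUnion hk
    have hinj : Function.Injective (fun r : ℝ => ((n, k, r) : D)) := by
      intro r r' h
      simpa using h
    have hc2 := hc.preimage_of_injOn (f := fun r : ℝ => ((n, k, r) : D)) hinj.injOn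
    refine not_countable_univ (α := ℝ) (hc2.mono ?_)
    intro r _
    obtain ⟨m, hm⟩ := hcon r
    exact mem_iUnion.mpr ⟨m, hm⟩
  choose r hr' using h2
  let t : ℕ → D := fun n => (n, k, r n)
  let z : ℕ → X := fun n => evX ((0, Sum.inl 0), bp 0 (t n))
  have hz : ∀ m n, m ≤ n → e (z n) ∈ C m (k m) := by
    intro m n h
    have h3 : z n = evX ((m, Sum.inl 0), bp m (t n)) := (evX_bp (d := t n) h).symm
    rw [h3]
    exact hr' n m
  -- a function which is unbounded along the sequence
  let U : ℕ → A → ℝ := fun i a =>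
    match a with
    | A.pt => 0
    | A.iso d => if d = t d.1 ∧ i ≤ d.1 then (d.1 : ℝ) else 0
  have hU : ∀ i, Continuous (U i) := by
    intro i
    refine continuous_def.mpr (fun V _ => (isOpen_A_iff _).mpr (fun h0 n => ?_))
    refine (finite_singleton (t n)).subset ?_
    rintro d ⟨hd, hd'⟩
    by_contra hne
    apply hd'
    have : ¬ (d = t d.1 ∧ i ≤ d.1) := fun h => hne (by rw [mem_singleton_iff, ← hd]; exact h.1)
    show U i (A.iso d) ∈ V
    simp only [U, if_neg this]
    exact h0
  let g : Y → ℝ := fun y => U y.1.1 (y.2 (k y.1.1))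
  have hgc : Continuous g := continuous_Y_iff.mpr (fun p => (hU p.1).comp (continuous_apply (k p.1)))
  have hgb : ∀ (d : D) (i : ℕ), i ≤ d.1 →
      g ((i, Sum.inl 0), bp i d) = if d = t d.1 then (d.1 : ℝ) else 0 := by
    intro d i h
    show U i (ee (d.2.1 i) (A.iso d) (k i)) = _
    by_cases hd : d = t d.1
    · have h4 : d.2.1 = k := by rw [hd]
      rw [h4, ee_self, if_pos hd]
      simp only [U]
      rw [if_pos ⟨hd, h⟩]
    · rw [if_neg hd]
      by_cases h5 : k i = d.2.1 i
      · rw [h5, ee_self]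
        simp only [U]
        rw [if_neg (fun h => hd h.1)]
      · rw [ee_ne h5]
  let G : FX := ⟨g, hgc, fun d i h => by rw [hgb d i h, hgb d 0 (Nat.zero_le _)], fun i => rfl⟩
  have hGz : ∀ n, (z n).1 G = n := by
    intro n
    show g ((0, Sum.inl 0), bp 0 (t n)) = n
    rw [hgb (t n) 0 (Nat.zero_le _), if_pos rfl]
  -- a limit along an ultrafilter
  let 𝒰 : Ultrafilter ℕ := Ultrafilter.of atTop
  have h𝒰 : (𝒰 : Filter ℕ) ≤ atTop := Ultrafilter.of_le _
  obtain ⟨p, -, hp⟩ := isCompact_univ.ultrafilter_le_nhds (𝒰.map (fun n => e (z n))) (by simp)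
  have hp' : Tendsto (fun n => e (z n)) 𝒰 (𝓝 p) := hp
  have hpC : p ∈ range e := by
    rw [hr]
    refine mem_iInter.mpr (fun m => mem_iUnion.mpr ⟨k m, ?_⟩)
    refine (hC m (k m)).isClosed.mem_of_tendsto hp' ?_
    filter_upwards [h𝒰 (eventually_ge_atTop m)] with n hn
    exact hz m n hn
  obtain ⟨x, rfl⟩ := hpC
  have hx : Tendsto z 𝒰 (𝓝 x) := he.tendsto_nhds_iff.mpr hp'
  have hcont : Continuous (fun x : X => x.1 G) :=
    (continuous_apply G).comp continuous_subtype_val
  have h6 : Tendsto (fun n => (z n).1 G) 𝒰 (𝓝 (x.1 G)) := (hcont.tendsto x).comp hx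
  have h7 : Tendsto (fun n => (z n).1 G) 𝒰 atTop := by
    simp only [hGz]
    exact tendsto_natCast_atTop_atTop.mono_left h𝒰
  exact not_tendsto_nhds_of_tendsto_atTop h7 _ h6

end Pool.Agent.Lib.MP_bdd006_gt
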