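import Pool.Agent.Lib.MP_bdd006_gt.Tube
import Pool.Agent.Lib.MP_bdd006_gt.Ext
import Pool.Agent.Lib.MP_bdd006_gt.Glue

/-!
The homeomorphism between the two function spaces.
-/

set_option autoImplicit false

namespace Pool.Agent.Lib.MP_bdd006_gt

open Filter Topology Set

/-- First group of coordinates. -/
def uc (g : Y → ℝ) (i : ℕ) (x : W) : ℕ → ℝ := fun n => g ((i, Sum.inl n), x)

/-- Second group of coordinates. -/
def ec (g : Y → ℝ) (i : ℕ) (x : W) : ℕ → ℝ := fun n => g ((i, Sum.inr n), x)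

/-- The guide. -/
noncomputable def gm (g : Y → ℝ) (i : ℕ) (x : W) : ℝ := nu (ec g i x)

/-- Continuous and vanishing at the base points. -/
def Base (g : Y → ℝ) : Prop := Continuous g ∧ ∀ p : I, g (p, oo) = 0

/-- Dominated by the guide. -/
def Dom (g : Y → ℝ) : Prop := ∀ i x n, Adm n (gm g i x) (g ((i, Sum.inl n), x))

lemma gm_nonneg (g : Y → ℝ) (i : ℕ) (x : W) : 0 ≤ gm g i x := nu_nonneg _

lemma Base.ec_oo {g : Y → ℝ} (h : Base g) (i : ℕ) : ec g i oo = 0 := funext (fun _ => h.2 _)

lemma Base.uc_oo {g : Y → ℝ} (h : Base g) (i : ℕ) : uc g i oo = 0 := funext (fun _ => h.2 _)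

lemma Base.gm_oo {g : Y → ℝ} (h : Base g) (i : ℕ) : gm g i oo = 0 := by
  rw [gm, h.ec_oo, nu_zero]

lemma Base.cont {g : Y → ℝ} (h : Base g) (p : I) : Continuous (fun x : W => g (p, x)) :=
  continuous_Y_iff.mp h.1 p

lemma Base.continuous_uc {g : Y → ℝ} (h : Base g) (i : ℕ) : Continuous (uc g i) :=
  continuous_pi (fun _ => h.cont _)

lemma Base.continuous_ec {g : Y → ℝ} (h : Base g) (i : ℕ) : Continuous (ec g i) :=
  continuous_pi (fun _ => h.cont _)

lemma Base.continuous_gm {g : Y → ℝ} (h : Base g) (i : ℕ) : Continuous (gm g i) :=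
  continuous_nu.comp (h.continuous_ec i)

lemma Base.tendsto_gm_bb {g : Y → ℝ} (h : Base g) (i : ℕ) (x : W) :
    Tendsto (fun j => gm g i (bb j x)) atTop (𝓝 0) := by
  have := ((h.continuous_gm i).tendsto oo).comp (tendsto_bb x)
  rwa [h.gm_oo] at this

section param
variable {Z : Type*} [TopologicalSpace Z] {G : Z → Y → ℝ}

lemma cont_eval (hG : Continuous G) (y : Y) : Continuous (fun z => G z y) :=
  (continuous_apply y).comp hG

lemma cont_uc (hG : Continuous G) (i : ℕ) (x : W) : Continuous (fun z => uc (G z) i x) :=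
  continuous_pi (fun _ => cont_eval hG _)

lemma cont_ec (hG : Continuous G) (i : ℕ) (x : W) : Continuous (fun z => ec (G z) i x) :=
  continuous_pi (fun _ => cont_eval hG _)

lemma cont_gm (hG : Continuous G) (i : ℕ) (x : W) : Continuous (fun z => gm (G z) i x) :=
  continuous_nu.comp (cont_ec hG i x)

end param

/-! ### First step: making the guide dominate -/

/-- Applying `lam` pointwise. -/
noncomputable def L1 (g : Y → ℝ) : Y → ℝ
  | ((i, Sum.inl n), x) => g ((i, Sum.inl n), x)
  | ((i, Sum.inr n), x) => lam (rho (uc g i x)) (ec g i x) n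

/-- Applying `mu` pointwise. -/
noncomputable def M1 (g : Y → ℝ) : Y → ℝ
  | ((i, Sum.inl n), x) => g ((i, Sum.inl n), x)
  | ((i, Sum.inr n), x) => mu (rho (uc g i x)) (ec g i x) n

lemma base_L1 {g : Y → ℝ} (h : Base g) : Base (L1 g) := by
  refine ⟨continuous_Y_iff.mpr ?_, ?_⟩
  · rintro ⟨i, n | n⟩
    · exact h.cont _
    · exact continuous_iff_continuousAt.mpr (fun x =>
        continuousAt_lam (h.continuous_uc i).continuousAt (h.continuous_ec i).continuousAt n)
  · rintro ⟨i, n | n⟩
    · exact h.2 _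
    · show lam (rho (uc g i oo)) (ec g i oo) n = 0
      rw [h.uc_oo, h.ec_oo, rho_zero, lam_zero]; rfl

lemma dom_L1 (g : Y → ℝ) : Dom (L1 g) := fun i x n => adm_lam (uc g i x) (ec g i x) n

lemma base_M1 {g : Y → ℝ} (h : Base g) (hd : Dom g) : Base (M1 g) := by
  refine ⟨continuous_Y_iff.mpr ?_, ?_⟩
  · rintro ⟨i, n | n⟩
    · exact h.cont _
    · exact continuous_iff_continuousAt.mpr (fun x =>
        continuousAt_mu (h.continuous_uc i).continuousAt (h.continuous_ec i).continuousAt
          (hd i x) n)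
  · rintro ⟨i, n | n⟩
    · exact h.2 _
    · show mu (rho (uc g i oo)) (ec g i oo) n = 0
      rw [h.uc_oo, h.ec_oo, rho_zero, mu_zero]; rfl

lemma M1_L1 (g : Y → ℝ) : M1 (L1 g) = g := by
  funext y
  obtain ⟨⟨i, n | n⟩, x⟩ := y
  · rfl
  · exact congrFun (mu_lam (rho_nonneg (uc g i x)) (rho_lt_one _) (ec g i x)) n

lemma L1_M1 {g : Y → ℝ} (hd : Dom g) : L1 (M1 g) = g := by
  funext y
  obtain ⟨⟨i, n | n⟩, x⟩ := y
  · rfl
  · exact congrFun (lam_mu_adm (u := uc g i x) (e := ec g i x) (hd i x)) n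

/-- The first homeomorphism, for a condition `Q` preserved by both maps. -/
noncomputable def homeo1 (Q : (Y → ℝ) → Prop) (hL : ∀ g, Q g → Q (L1 g))
    (hM : ∀ g, Q g → Q (M1 g)) :
    {g : Y → ℝ // Base g ∧ Q g} ≃ₜ {g : Y → ℝ // (Base g ∧ Dom g) ∧ Q g} where
  toFun g := ⟨L1 g.1, ⟨base_L1 g.2.1, dom_L1 _⟩, hL _ g.2.2⟩
  invFun g := ⟨M1 g.1, base_M1 g.2.1.1 g.2.1.2, hM _ g.2.2⟩
  left_inv g := Subtype.ext (M1_L1 g.1)
  right_inv g := Subtype.ext (L1_M1 g.2.1.2)
  continuous_toFun := by
    refine Continuous.subtype_mk (continuous_pi ?_) _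
    rintro ⟨⟨i, n | n⟩, x⟩
    · exact cont_eval continuous_subtype_val _
    · exact continuous_iff_continuousAt.mpr (fun g =>
        continuousAt_lam (cont_uc continuous_subtype_val i x).continuousAt
          (cont_ec continuous_subtype_val i x).continuousAt n)
  continuous_invFun := by
    refine Continuous.subtype_mk (continuous_pi ?_) _
    rintro ⟨⟨i, n | n⟩, x⟩
    · exact cont_eval continuous_subtype_val _
    · exact continuous_iff_continuousAt.mpr (fun g =>
        continuousAt_mu (cont_uc continuous_subtype_val i x).continuousAt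
          (cont_ec continuous_subtype_val i x).continuousAt (g.2.1.2 i x) n)

/-! ### Second step: changing the boundary values -/

/-- The normalised coordinate. -/
noncomputable def hat (g : Y → ℝ) (i n : ℕ) (x : W) : ℝ :=
  tr (bt n (gm g i x))⁻¹ (g ((i, Sum.inl n), x))

/-- Boundary data seen from column `k` of block `i`. -/
noncomputable def Dl (c : D → ℝ) (i k : ℕ) : A → ℝ
  | A.pt => 0
  | A.iso d => if k = d.2.1 i ∧ i ≤ d.1 then c d else 0

/-- The guided extension of boundary data. -/
noncomputable def xt (g : Y → ℝ) (c : D → ℝ) (i : ℕ) (x : W) : ℝ :=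
  gext (gm g i x) (fun j => gm g i (bb j x)) (fun k => gm g i (ee k (x k)))
    (fun k => Dl c i k (x k))

/-- Replacing the normalised boundary values by `c`. -/
noncomputable def T (g : Y → ℝ) (c : ℕ → ℕ → D → ℝ) : Y → ℝ
  | ((i, Sum.inl n), x) => tr (bt n (gm g i x))
      (hat g i n x + xt g (fun d => c i n d - hat g i n (bp i d)) i x)
  | ((i, Sum.inr n), x) => g ((i, Sum.inr n), x)

lemma gm_T (g : Y → ℝ) (c : ℕ → ℕ → D → ℝ) : gm (T g c) = gm g := rfl

lemma T_inl (g : Y → ℝ) (c : ℕ → ℕ → D → ℝ) (i n : ℕ) (x : W) :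
    T g c ((i, Sum.inl n), x) = tr (bt n (gm g i x))
      (hat g i n x + xt g (fun d => c i n d - hat g i n (bp i d)) i x) := rfl

lemma dom_T (g : Y → ℝ) (c : ℕ → ℕ → D → ℝ) : Dom (T g c) :=
  fun i x n => adm_tr n (gm_nonneg g i x) _

lemma base_T {g : Y → ℝ} (h : Base g) (hd : Dom g) (c : ℕ → ℕ → D → ℝ) : Base (T g c) := by
  refine ⟨continuous_Y_iff.mpr ?_, ?_⟩
  · rintro ⟨i, n | n⟩
    · refine continuous_iff_continuousAt.mpr (fun x0 => ?_)
      refine continuousAt_tr_bt n (h.continuous_gm i).continuousAt (gm_nonneg g i x0)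
        (fun hpos => ContinuousAt.add ?_ ?_)
      · exact continuousAt_tr_bt_inv n (h.continuous_gm i).continuousAt hpos
          (h.cont _).continuousAt (hd i x0 n)
      · refine continuousAt_gext (h.continuous_gm i).continuousAt
          (fun j => ((h.continuous_gm i).comp (continuous_bb j)).continuousAt)
          (fun k => ((h.continuous_gm i).comp
            ((continuous_ee k).comp (continuous_apply k))).continuousAt) hpos
          (h.tendsto_gm_bb i x0) (fun k hk => ?_)
        rcases hx : x0 k with _ | d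
        · rw [hx, ee_pt, h.gm_oo] at hk
          exact absurd hk (lt_irrefl _)
        · have h1 : ∀ᶠ x : W in 𝓝 x0, x k = A.iso d :=
            (continuous_apply k).continuousAt.eventually
              ((isOpen_iso d).mem_nhds (show x0 k ∈ ({A.iso d} : Set A) from hx))
          refine ContinuousAt.congr (f := fun _ =>
            Dl (fun d => c i n d - hat g i n (bp i d)) i k (A.iso d)) continuousAt_const ?_
          filter_upwards [h1] with x hx'
          rw [hx']
    · exact h.cont _
  · rintro ⟨i, n | n⟩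
    · rw [T_inl, h.gm_oo, bt_zero, tr_zero_left]
    · exact h.2 _

lemma hat_T (g : Y → ℝ) (c : ℕ → ℕ → D → ℝ) {i : ℕ} (n : ℕ) {x : W} (hpos : 0 < gm g i x) :
    hat (T g c) i n x = hat g i n x + xt g (fun d => c i n d - hat g i n (bp i d)) i x := by
  rw [hat, gm_T, T_inl, tr_inv_tr (bt_pos n hpos) (bt_le_one _ _)]

lemma xt_bp (g : Y → ℝ) (c : D → ℝ) {i : ℕ} {d : D} (hi : i ≤ d.1)
    (hpos : 0 < gm g i (bp i d)) : xt g c i (bp i d) = c d := by
  unfold xt
  rw [gext_single (k := d.2.1 i) hpos (fun j hj => by rw [bp, bb_ee hj])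
    (by rw [bp, ee_self]) (fun l hl => by rw [bp, ee_ne hl]; rfl)]
  rw [bp, ee_self]
  simp [Dl, hi]

lemma hat_T_bp (g : Y → ℝ) (c : ℕ → ℕ → D → ℝ) {i : ℕ} (n : ℕ) {d : D} (hi : i ≤ d.1)
    (hpos : 0 < gm g i (bp i d)) : hat (T g c) i n (bp i d) = c i n d := by
  rw [hat_T g c n hpos, xt_bp g _ hi hpos]; ring

lemma T_bp (g : Y → ℝ) (c : ℕ → ℕ → D → ℝ) {i : ℕ} (n : ℕ) {d : D} (hi : i ≤ d.1) :
    T g c ((i, Sum.inl n), bp i d) = tr (bt n (gm g i (bp i d))) (c i n d) := by
  rw [T_inl]
  rcases (gm_nonneg g i (bp i d)).lt_or_eq with hpos | h0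
  · rw [xt_bp g _ hi hpos]; congr 1; ring
  · rw [← h0, bt_zero, tr_zero_left, tr_zero_left]

lemma T_T {g : Y → ℝ} (hd : Dom g) {c c' : ℕ → ℕ → D → ℝ}
    (hc : ∀ i n (d : D), i ≤ d.1 → 0 < gm g i (bp i d) → c' i n d = hat g i n (bp i d)) :
    T (T g c) c' = g := by
  funext y
  obtain ⟨⟨i, n | n⟩, x⟩ := y
  · rw [T_inl, gm_T]
    rcases (gm_nonneg g i x).lt_or_eq with hpos | h0
    · have h1 : xt (T g c) (fun d => c' i n d - hat (T g c) i n (bp i d)) i x =
          -xt g (fun d => c i n d - hat g i n (bp i d)) i x := by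
        unfold xt
        rw [gm_T]
        refine gext_neg _ _ (fun k hk => ?_)
        rcases hx : x k with _ | d
        · simp [Dl]
        · simp only [Dl]
          split_ifs with h2
          · have h3 : 0 < gm g i (bp i d) := by
              rw [hx, h2.1] at hk
              exact lt_of_le_of_ne (gm_nonneg _ _ _) (Ne.symm hk)
            rw [hc i n d h2.2 h3, hat_T_bp g c n h2.2 h3]; ring
          · simp
      rw [h1, hat_T g c n hpos, add_neg_cancel_right, hat]
      exact tr_tr_inv (bt_pos n hpos) ((hd i x n).lt hpos)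
    · have h2 := hd i x n
      rw [← h0] at h2 ⊢
      rw [bt_zero, tr_zero_left, h2.eq_zero]
  · rfl

section param2
variable {Z : Type*} [TopologicalSpace Z] {G : Z → Y → ℝ} {z0 : Z}

lemma contAt_hat (hG : Continuous G) (hd : Dom (G z0)) {i : ℕ} (n : ℕ) {x : W}
    (hpos : 0 < gm (G z0) i x) : ContinuousAt (fun z => hat (G z) i n x) z0 :=
  continuousAt_tr_bt_inv n (cont_gm hG i x).continuousAt hpos (cont_eval hG _).continuousAt
    (hd i x n)

lemma contAt_T (hG : Continuous G) (h : Base (G z0)) (hd : Dom (G z0))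
    {c : Z → ℕ → ℕ → D → ℝ}
    (hc : ∀ i n (d : D), i ≤ d.1 → 0 < gm (G z0) i (bp i d) →
      ContinuousAt (fun z => c z i n d) z0) (y : Y) :
    ContinuousAt (fun z => T (G z) (c z) y) z0 := by
  obtain ⟨⟨i, n | n⟩, x⟩ := y
  · refine continuousAt_tr_bt n (cont_gm hG i x).continuousAt (gm_nonneg _ i x)
      (fun hpos => ContinuousAt.add (contAt_hat hG hd n hpos) ?_)
    refine continuousAt_gext (cont_gm hG i x).continuousAt
      (fun j => (cont_gm hG i _).continuousAt) (fun k => (cont_gm hG i _).continuousAt) hpos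
      (h.tendsto_gm_bb i x) (fun k hk => ?_)
    rcases hx : x k with _ | d
    · exact continuousAt_const
    · simp only [Dl]
      split_ifs with h2
      · have h3 : 0 < gm (G z0) i (bp i d) := by
          rw [hx, h2.1] at hk
          exact hk
        exact (hc i n d h2.2 h3).sub (contAt_hat hG hd n h3)
      · exact continuousAt_const
  · exact (cont_eval hG _).continuousAt

end param2

/-- Guide values at the boundary points over `d`. -/
noncomputable def gb (g : Y → ℝ) (d : D) : ℕ → ℝ := fun i => gm g i (bp i d)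

/-- Normalised values at the boundary points over `d`. -/
noncomputable def ab (g : Y → ℝ) (d : D) : ℕ → ℕ → ℝ := fun n i => hat g i n (bp i d)

/-- The common value over `d`. -/
def ub (g : Y → ℝ) (d : D) : ℝ := g ((0, Sum.inl 0), bp 0 d)

/-- Forward boundary data. -/
noncomputable def dF (g : Y → ℝ) : ℕ → ℕ → D → ℝ :=
  fun i n d => cF d.1 (gb g d) (ab g d) (ub g d) n i

/-- Backward boundary data. -/
noncomputable def dB (g : Y → ℝ) : ℕ → ℕ → D → ℝ :=
  fun i n d => cB d.1 (gb g d) (ab g d) n i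

lemma adm_ub {g : Y → ℝ} (hd : Dom g) (hg : GlueD g) (d : D) (i : ℕ) (hi : i ≤ d.1) :
    Adm 0 (gb g d i) (ub g d) := by
  have := hd i (bp i d) 0
  rwa [hg d i hi] at this

lemma T_dB_bp (g : Y → ℝ) {d : D} {i : ℕ} (hi : i ≤ d.1) :
    T g (dB g) ((i, Sum.inl 0), bp i d) = uB d.1 (gb g d) (ab g d) := by
  rw [T_bp g _ 0 hi]
  have h1 := adm_uB (N := d.1) (γ := gb g d) (fun i => gm_nonneg _ _ _) (ab g d) hi
  show tr (bt 0 (gb g d i)) (tr (bt 0 (gb g d i))⁻¹ (uB d.1 (gb g d) (ab g d))) = _
  rcases (gm_nonneg g i (bp i d)).lt_or_eq with hpos | h0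
  · exact tr_tr_inv (bt_pos 0 hpos) (h1.lt hpos)
  · have h2 : gb g d i = 0 := h0.symm
    rw [h2] at h1 ⊢
    rw [bt_zero, tr_zero_left, h1.eq_zero]

lemma glue_T_dB (g : Y → ℝ) : GlueD (T g (dB g)) := by
  intro d i hi
  rw [T_dB_bp g hi, T_dB_bp g (Nat.zero_le _)]

lemma back_forth_T {g : Y → ℝ} (hd : Dom g) (hg : GlueD g) :
    T (T g (dF g)) (dB (T g (dF g))) = g := by
  refine T_T hd (fun i n d hi hpos => ?_)
  obtain ⟨h1, h2⟩ := back_forth (N := d.1) (γ := gb g d) (fun i => gm_nonneg _ _ _)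
    (a := ab g d) (b := ab (T g (dF g)) d) (u := ub g d) (adm_ub hd hg d)
    (fun n i hi hpos => hat_T_bp g (dF g) n hi hpos)
  cases n with
  | zero =>
    show tr (bt 0 (gb g d i))⁻¹ (uB d.1 (gb g d) (ab (T g (dF g)) d)) = _
    rw [h1, hat, hg d i hi]
    rfl
  | succ n => exact h2 n i hi hpos

lemma forth_back_T {g : Y → ℝ} (hd : Dom g) : T (T g (dB g)) (dF (T g (dB g))) = g := by
  refine T_T hd (fun i n d hi hpos => ?_)
  have h1 := forth_back (N := d.1) (γ := gb g d) (fun i => gm_nonneg _ _ _)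
    (a := ab (T g (dB g)) d) (b := ab g d)
    (fun n i hi hpos => hat_T_bp g (dB g) n hi hpos) n i hi hpos
  have h2 : ub (T g (dB g)) d = uB d.1 (gb g d) (ab g d) := T_dB_bp g (Nat.zero_le _)
  show cF d.1 (gb g d) (ab (T g (dB g)) d) (ub (T g (dB g)) d) n i = _
  rw [h2, h1]
  rfl

/-- The second homeomorphism. -/
noncomputable def homeo2 :
    {g : Y → ℝ // (Base g ∧ Dom g) ∧ GlueD g} ≃ₜ {g : Y → ℝ // (Base g ∧ Dom g) ∧ True} where
  toFun g := ⟨T g.1 (dF g.1), ⟨base_T g.2.1.1 g.2.1.2 _, dom_T _ _⟩, trivial⟩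
  invFun g := ⟨T g.1 (dB g.1), ⟨base_T g.2.1.1 g.2.1.2 _, dom_T _ _⟩, glue_T_dB _⟩
  left_inv g := Subtype.ext (back_forth_T g.2.1.2 g.2.2)
  right_inv g := Subtype.ext (forth_back_T g.2.1.2)
  continuous_toFun := by
    refine Continuous.subtype_mk (continuous_pi (fun y => ?_)) _
    refine continuous_iff_continuousAt.mpr (fun g => ?_)
    refine contAt_T continuous_subtype_val g.2.1.1 g.2.1.2 (fun i n d hi hpos => ?_) y
    exact continuousAt_cF (fun j => (cont_gm continuous_subtype_val j _).continuousAt)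
      (fun j => gm_nonneg _ _ _)
      (fun m j _ hj => contAt_hat continuous_subtype_val g.2.1.2 m hj)
      (cont_eval continuous_subtype_val _).continuousAt (adm_ub g.2.1.2 g.2.2 d) n hi hpos
  continuous_invFun := by
    refine Continuous.subtype_mk (continuous_pi (fun y => ?_)) _
    refine continuous_iff_continuousAt.mpr (fun g => ?_)
    refine contAt_T continuous_subtype_val g.2.1.1 g.2.1.2 (fun i n d hi hpos => ?_) y
    exact continuousAt_cB (fun j => (cont_gm continuous_subtype_val j _).continuousAt)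
      (fun j => gm_nonneg _ _ _)
      (fun m j _ hj => contAt_hat continuous_subtype_val g.2.1.2 m hj) n hi hpos

/-- The homeomorphism between the pointed function spaces. -/
noncomputable def homeoPt :
    {g : Y → ℝ // Base g ∧ GlueD g} ≃ₜ {g : Y → ℝ // Base g ∧ True} :=
  ((homeo1 GlueD (fun _ h => h) (fun _ h => h)).trans homeo2).trans
    (homeo1 (fun _ => True) (fun _ h => h) (fun _ h => h)).symm

/-! ### Base values -/

lemma continuous_index (b : I → ℝ) : Continuous (fun y : Y => b y.1) :=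
  continuous_Y_iff.mpr (fun p => continuous_const (y := b p))

/-- Splitting off the base values on the glued side. -/
noncomputable def splitX :
    FX ≃ₜ {b : I → ℝ // ∀ i, b (i, Sum.inl 0) = b (0, Sum.inl 0)} ×
      {g : Y → ℝ // Base g ∧ GlueD g} where
  toFun g := (⟨fun p => g.1 (p, oo), g.2.2.2⟩,
    ⟨fun y => g.1 y - g.1 (y.1, oo),
      ⟨g.2.1.sub (continuous_index (fun p => g.1 (p, oo))), fun p => sub_self _⟩,
      fun d i hi => by
        show g.1 _ - g.1 _ = g.1 _ - g.1 _
        rw [g.2.2.1 d i hi, g.2.2.2 i]⟩)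
  invFun q := ⟨fun y => q.2.1 y + q.1.1 y.1, q.2.2.1.1.add (continuous_index _),
    fun d i hi => by
      show q.2.1 _ + q.1.1 _ = q.2.1 _ + q.1.1 _
      rw [q.2.2.2 d i hi, q.1.2 i],
    fun i => by
      show q.2.1 _ + q.1.1 _ = q.2.1 _ + q.1.1 _
      rw [q.2.2.1.2, q.2.2.1.2, q.1.2 i]⟩
  left_inv g := Subtype.ext (funext (fun y => sub_add_cancel _ _))
  right_inv q := by
    refine Prod.ext (Subtype.ext (funext (fun p => ?_))) (Subtype.ext (funext (fun y => ?_)))
    · show q.2.1 (p, oo) + q.1.1 p = q.1.1 p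
      rw [q.2.2.1.2, zero_add]
    · show q.2.1 y + q.1.1 y.1 - (q.2.1 (y.1, oo) + q.1.1 y.1) = q.2.1 y
      rw [q.2.2.1.2]; ring
  continuous_toFun := by
    refine Continuous.prodMk (Continuous.subtype_mk (continuous_pi (fun p => ?_)) _)
      (Continuous.subtype_mk (continuous_pi (fun y => ?_)) _)
    · exact cont_eval continuous_subtype_val _
    · exact (cont_eval continuous_subtype_val _).sub (cont_eval continuous_subtype_val _)
  continuous_invFun := by
    refine Continuous.subtype_mk (continuous_pi (fun y => ?_)) _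
    exact (cont_eval (continuous_subtype_val.comp continuous_snd) _).add
      ((continuous_apply y.1).comp (continuous_subtype_val.comp continuous_fst))

/-- Splitting off the base values on the free side. -/
noncomputable def splitY :
    {g : Y → ℝ // Continuous g} ≃ₜ (I → ℝ) × {g : Y → ℝ // Base g ∧ True} where
  toFun g := (fun p => g.1 (p, oo),
    ⟨fun y => g.1 y - g.1 (y.1, oo),
      ⟨g.2.sub (continuous_index (fun p => g.1 (p, oo))), fun p => sub_self _⟩, trivial⟩)
  invFun q := ⟨fun y => q.2.1 y + q.1 y.1, q.2.2.1.1.add (continuous_index _)⟩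
  left_inv g := Subtype.ext (funext (fun y => sub_add_cancel _ _))
  right_inv q := by
    refine Prod.ext (funext (fun p => ?_)) (Subtype.ext (funext (fun y => ?_)))
    · show q.2.1 (p, oo) + q.1 p = q.1 p
      rw [q.2.2.1.2, zero_add]
    · show q.2.1 y + q.1 y.1 - (q.2.1 (y.1, oo) + q.1 y.1) = q.2.1 y
      rw [q.2.2.1.2]; ring
  continuous_toFun := by
    refine Continuous.prodMk (continuous_pi (fun p => ?_))
      (Continuous.subtype_mk (continuous_pi (fun y => ?_)) _)
    · exact cont_eval continuous_subtype_val _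
    · exact (cont_eval continuous_subtype_val _).sub (cont_eval continuous_subtype_val _)
  continuous_invFun := by
    refine Continuous.subtype_mk (continuous_pi (fun y => ?_)) _
    exact (cont_eval (continuous_subtype_val.comp continuous_snd) _).add
      ((continuous_apply y.1).comp continuous_fst)

/-- Reindexing in the forward direction. -/
def ixF : I → I
  | (i + 1, Sum.inl n) => (i + 1, Sum.inl (n + 1))
  | p => p

/-- Reindexing in the backward direction. -/
def ixB : I → I
  | (_ + 1, Sum.inl 0) => (0, Sum.inl 0)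
  | (i + 1, Sum.inl (n + 1)) => (i + 1, Sum.inl n)
  | p => p

/-- The base values on the two sides. -/
noncomputable def homeoB :
    {b : I → ℝ // ∀ i, b (i, Sum.inl 0) = b (0, Sum.inl 0)} ≃ₜ (I → ℝ) where
  toFun b := fun p => b.1 (ixF p)
  invFun b := ⟨fun p => b (ixB p), fun i => by cases i <;> rfl⟩
  left_inv b := by
    refine Subtype.ext (funext ?_)
    rintro ⟨_ | i, (_ | n) | n⟩
    · rfl
    · rfl
    · rfl
    · exact (b.2 (i + 1)).symm
    · rfl
    · rfl
  right_inv b := by
    refine funext ?_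
    rintro ⟨_ | i, (_ | n) | n⟩ <;> rfl
  continuous_toFun :=
    continuous_pi (fun p => (continuous_apply (ixF p)).comp continuous_subtype_val)
  continuous_invFun := by
    refine Continuous.subtype_mk (continuous_pi (fun p => ?_)) _
    exact continuous_apply _

/-- The two function spaces are homeomorphic. -/
noncomputable def homeoXY : {f : X → ℝ // Continuous f} ≃ₜ {g : Y → ℝ // Continuous g} :=
  ((homeoX.trans splitX).trans (homeoB.prodCongr homeoPt)).trans splitY.symm

end Pool.Agent.Lib.MP_bdd006_gt
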