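import Mathlib

/-!
Elementary real functions used in the construction: a homeomorphism `sg` of the line onto
the open interval from -1 to 1, its inverse `sgi`, the rescaling `tr`, the widths `bt`,
and continuity of suprema of uniformly small sequences.
-/

set_option autoImplicit false

namespace Pool.Agent.Lib.MP_bdd006_gt

open Filter Topology Set

/-- The squeezing map from the line onto the open interval from -1 to 1. -/
noncomputable def sg (t : ℝ) : ℝ := t / (1 + |t|)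

/-- The inverse of `sg`. -/
noncomputable def sgi (s : ℝ) : ℝ := s / (1 - |s|)

lemma sg_zero : sg 0 = 0 := by simp [sg]

lemma sgi_zero : sgi 0 = 0 := by simp [sgi]

lemma abs_sg (t : ℝ) : |sg t| = |t| / (1 + |t|) := by
  have : 0 < 1 + |t| := by positivity
  rw [sg, abs_div, abs_of_pos this]

lemma abs_sg_lt (t : ℝ) : |sg t| < 1 := by
  have : 0 < 1 + |t| := by positivity
  rw [abs_sg, div_lt_one this]; linarith

lemma sgi_sg (t : ℝ) : sgi (sg t) = t := by
  have h : 0 < 1 + |t| := by positivity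
  rw [sgi, abs_sg, sg]
  field_simp
  ring

lemma sg_sgi {s : ℝ} (hs : |s| < 1) : sg (sgi s) = s := by
  have h : 0 < 1 - |s| := by linarith
  have h2 : |sgi s| = |s| / (1 - |s|) := by rw [sgi, abs_div, abs_of_pos h]
  rw [sg, h2, sgi]
  field_simp
  ring

lemma continuous_sg : Continuous sg := by
  unfold sg
  refine Continuous.div continuous_id (by fun_prop) (fun t => ?_)
  have : 0 < 1 + |t| := by positivity
  exact this.ne'

lemma continuousAt_sgi {s : ℝ} (hs : |s| < 1) : ContinuousAt sgi s := by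
  unfold sgi
  refine ContinuousAt.div continuousAt_id (by fun_prop) ?_
  have : 0 < 1 - |s| := by linarith
  exact this.ne'

lemma sg_eq_zero {t : ℝ} (h : sg t = 0) : t = 0 := by
  rw [← sgi_sg t, h, sgi_zero]

lemma sg_mono {a b : ℝ} (h : a ≤ b) : sg a ≤ sg b := by
  have ha : 0 < 1 + |a| := by positivity
  have hb : 0 < 1 + |b| := by positivity
  rw [sg, sg, div_le_div_iff₀ ha hb]
  rcases le_total 0 a with h1 | h1 <;> rcases le_total 0 b with h2 | h2
  · rw [abs_of_nonneg h1, abs_of_nonneg h2]; nlinarith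
  · rw [abs_of_nonneg h1, abs_of_nonpos h2]; nlinarith
  · rw [abs_of_nonpos h1, abs_of_nonneg h2]; nlinarith
  · rw [abs_of_nonpos h1, abs_of_nonpos h2]; nlinarith

/-- Rescaling by the factor `c` in the squeezed coordinate. -/
noncomputable def tr (c t : ℝ) : ℝ := sgi (c * sg t)

lemma tr_zero_left (t : ℝ) : tr 0 t = 0 := by simp [tr, sgi_zero]

lemma tr_zero_right (c : ℝ) : tr c 0 = 0 := by simp [tr, sg_zero, sgi_zero]

lemma abs_mul_sg_lt {c : ℝ} (h0 : 0 ≤ c) (h1 : c ≤ 1) (t : ℝ) : |c * sg t| < 1 := by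
  rw [abs_mul, abs_of_nonneg h0]
  have := abs_sg_lt t
  have h2 := abs_nonneg (sg t)
  nlinarith

lemma sg_tr {c : ℝ} (h0 : 0 ≤ c) (h1 : c ≤ 1) (t : ℝ) : sg (tr c t) = c * sg t :=
  sg_sgi (abs_mul_sg_lt h0 h1 t)

lemma abs_inv_mul_sg_lt {c h : ℝ} (h0 : 0 < c) (hh : |sg h| < c) : |c⁻¹ * sg h| < 1 := by
  rw [abs_mul, abs_of_pos (inv_pos.mpr h0), inv_mul_lt_iff₀ h0]; linarith

lemma tr_tr_inv {c h : ℝ} (h0 : 0 < c) (hh : |sg h| < c) : tr c (tr c⁻¹ h) = h := by
  rw [tr, tr, sg_sgi (abs_inv_mul_sg_lt h0 hh), ← mul_assoc, mul_inv_cancel₀ h0.ne', one_mul,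
    sgi_sg]

lemma tr_inv_tr {c : ℝ} (h0 : 0 < c) (h1 : c ≤ 1) (t : ℝ) : tr c⁻¹ (tr c t) = t := by
  rw [tr, sg_tr h0.le h1, ← mul_assoc, inv_mul_cancel₀ h0.ne', one_mul, sgi_sg]

section cont
variable {Z : Type*} [TopologicalSpace Z] {z0 : Z}

lemma continuousAt_tr {c t : Z → ℝ} (hc : ContinuousAt c z0) (ht : ContinuousAt t z0)
    (h : |c z0 * sg (t z0)| < 1) : ContinuousAt (fun z => tr (c z) (t z)) z0 := by
  unfold tr
  exact ContinuousAt.comp (f := fun z => c z * sg (t z)) (continuousAt_sgi h)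
    (hc.mul (continuous_sg.continuousAt.comp ht))

lemma continuousAt_tr_zero {c t : Z → ℝ} (hc : ContinuousAt c z0) (h : c z0 = 0) :
    ContinuousAt (fun z => tr (c z) (t z)) z0 := by
  unfold tr
  have h1 : ContinuousAt (fun z => c z * sg (t z)) z0 := by
    show Tendsto (fun z => c z * sg (t z)) (𝓝 z0) (𝓝 (c z0 * sg (t z0)))
    rw [h, zero_mul]
    have h2 : Tendsto (fun z => |c z|) (𝓝 z0) (𝓝 0) := by
      have := hc.abs
      unfold ContinuousAt at this
      simpa [h] using this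
    refine squeeze_zero_norm (fun z => ?_) h2
    rw [Real.norm_eq_abs, abs_mul]
    have := abs_sg_lt (t z)
    have h3 := abs_nonneg (c z)
    nlinarith
  refine ContinuousAt.comp (g := sgi) (f := fun z => c z * sg (t z)) ?_ h1
  apply continuousAt_sgi
  simp [h]

lemma continuousAt_tr_inv {c t : Z → ℝ} (hc : ContinuousAt c z0) (ht : ContinuousAt t z0)
    (h0 : 0 < c z0) (h : |sg (t z0)| < c z0) :
    ContinuousAt (fun z => tr (c z)⁻¹ (t z)) z0 :=
  continuousAt_tr (hc.inv₀ h0.ne') ht (abs_inv_mul_sg_lt h0 h)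

end cont

/-- The width of the `n`-th coordinate over the guide value `g`. -/
noncomputable def bt (n : ℕ) (g : ℝ) : ℝ := min 1 (((n : ℝ) + 1) * g)

lemma bt_zero (n : ℕ) : bt n 0 = 0 := by simp [bt]

lemma bt_le_one (n : ℕ) (g : ℝ) : bt n g ≤ 1 := min_le_left _ _

lemma bt_nonneg (n : ℕ) {g : ℝ} (hg : 0 ≤ g) : 0 ≤ bt n g :=
  le_min zero_le_one (by positivity)

lemma bt_pos (n : ℕ) {g : ℝ} (hg : 0 < g) : 0 < bt n g :=
  lt_min zero_lt_one (by positivity)

lemma bt_mono (n : ℕ) {g g' : ℝ} (h : g ≤ g') : bt n g ≤ bt n g' :=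
  min_le_min le_rfl (mul_le_mul_of_nonneg_left h (by positivity))

lemma continuous_bt (n : ℕ) : Continuous (bt n) := by
  unfold bt; fun_prop

/-- The value `h` is admissible for coordinate `n` over the guide value `g`. -/
def Adm (n : ℕ) (g h : ℝ) : Prop := |sg h| < bt n g ∨ h = 0

lemma Adm.lt {n : ℕ} {g h : ℝ} (H : Adm n g h) (hg : 0 < g) : |sg h| < bt n g := by
  rcases H with H | H
  · exact H
  · rw [H, sg_zero, abs_zero]; exact bt_pos n hg

lemma Adm.eq_zero {n : ℕ} {h : ℝ} (H : Adm n 0 h) : h = 0 := by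
  rcases H with H | H
  · rw [bt_zero] at H
    exact absurd H (not_lt.mpr (abs_nonneg _))
  · exact H

lemma adm_tr (n : ℕ) {g : ℝ} (hg : 0 ≤ g) (t : ℝ) : Adm n g (tr (bt n g) t) := by
  rcases hg.lt_or_eq with hg' | hg'
  · left
    rw [sg_tr (bt_nonneg n hg) (bt_le_one n g), abs_mul, abs_of_pos (bt_pos n hg')]
    have := abs_sg_lt t
    have h2 := bt_pos n hg'
    nlinarith
  · right
    rw [← hg', bt_zero, tr_zero_left]

/-- weights -/
noncomputable def wt (n : ℕ) : ℝ := 1 / ((n : ℝ) + 1)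

lemma wt_pos (n : ℕ) : 0 < wt n := by unfold wt; positivity

lemma wt_le_one (n : ℕ) : wt n ≤ 1 := by
  unfold wt
  rw [div_le_one (by positivity)]
  have : (0 : ℝ) ≤ n := Nat.cast_nonneg n
  linarith

lemma wt_anti {m n : ℕ} (h : m ≤ n) : wt n ≤ wt m := by
  unfold wt
  have : (m : ℝ) ≤ n := Nat.cast_le.mpr h
  exact one_div_le_one_div_of_le (by positivity) (by linarith)

lemma exists_wt_lt {ε : ℝ} (h : 0 < ε) : ∃ N, wt N < ε := exists_nat_one_div_lt h

lemma bdd_of_le_wt {f : ℕ → ℝ} (h1 : ∀ n, f n ≤ wt n) : BddAbove (range f) :=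
  ⟨1, by rintro _ ⟨n, rfl⟩; exact (h1 n).trans (wt_le_one n)⟩

lemma iSup_lt_of_le_wt {f : ℕ → ℝ} (h1 : ∀ n, f n ≤ wt n) {a : ℝ} (ha : 0 < a)
    (h : ∀ n, f n < a) : ⨆ n, f n < a := by
  obtain ⟨N, hN⟩ := exists_wt_lt ha
  obtain ⟨c, hc, hc'⟩ : ∃ c, c < a ∧ ∀ n ∈ Finset.range N, f n ≤ c := by
    induction N with
    | zero => exact ⟨a - 1, by linarith, by simp⟩
    | succ N _ =>
      obtain ⟨n0, _, hn0⟩ := (Finset.range (N + 1)).exists_max_image f (by simp)
      exact ⟨f n0, h n0, hn0⟩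
  refine lt_of_le_of_lt (ciSup_le (c := max c (wt N)) (fun n => ?_)) (max_lt hc hN)
  rcases lt_or_ge n N with hn | hn
  · exact (hc' n (Finset.mem_range.mpr hn)).trans (le_max_left _ _)
  · exact ((h1 n).trans (wt_anti hn)).trans (le_max_right _ _)

lemma continuous_iSup_wt {Z : Type*} [TopologicalSpace Z] {f : ℕ → Z → ℝ}
    (hf : ∀ n, Continuous (f n)) (h0 : ∀ n z, 0 ≤ f n z) (h1 : ∀ n z, f n z ≤ wt n) :
    Continuous (fun z => ⨆ n, f n z) := by
  rw [continuous_iff_continuousAt]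
  intro z0
  refine tendsto_order.mpr ⟨fun a ha => ?_, fun a ha => ?_⟩
  · obtain ⟨n, hn⟩ := exists_lt_of_lt_ciSup ha
    filter_upwards [(hf n).continuousAt.eventually (lt_mem_nhds hn)] with z hz
    exact hz.trans_le (le_ciSup (bdd_of_le_wt (fun n => h1 n z)) n)
  · have ha0 : 0 < a :=
      lt_of_le_of_lt ((h0 0 z0).trans (le_ciSup (bdd_of_le_wt (fun n => h1 n z0)) 0)) ha
    obtain ⟨N, hN⟩ := exists_wt_lt ha0
    have h2 : ∀ n ∈ Finset.range N, ∀ᶠ z in 𝓝 z0, f n z < a := fun n _ =>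
      (hf n).continuousAt.eventually
        (gt_mem_nhds (lt_of_le_of_lt (le_ciSup (bdd_of_le_wt (fun n => h1 n z0)) n) ha))
    filter_upwards [(Finset.eventually_all _).mpr h2] with z hz
    refine iSup_lt_of_le_wt (fun n => h1 n z) ha0 (fun n => ?_)
    rcases lt_or_ge n N with hn | hn
    · exact hz n (Finset.mem_range.mpr hn)
    · exact lt_of_le_of_lt ((h1 n z).trans (wt_anti hn)) hN

end Pool.Agent.Lib.MP_bdd006_gt
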