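import Mathlib

/-!
The column space `A`, the cell `W`, the space `Y`, the free sequence lemma and the covering
property of the cell.
-/

set_option autoImplicit false

namespace Pool.Agent.Lib.MP_bdd006_gt

open Filter Topology Set

/-- The isolated points of a column. -/
abbrev D : Type := ℕ × (ℕ → ℕ) × ℝ

/-- A column: the isolated points together with one base point. -/
inductive A : Type
  | pt : A
  | iso : D → A

instance : TopologicalSpace A where
  IsOpen U := A.pt ∈ U → ∀ n, {d : D | d.1 = n ∧ A.iso d ∉ U}.Finite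
  isOpen_univ := by intro _ n; simp
  isOpen_inter := by
    intro U V hU hV h n
    refine ((hU h.1 n).union (hV h.2 n)).subset ?_
    rintro d ⟨h1, h2⟩
    by_cases h3 : A.iso d ∈ U
    · exact Or.inr ⟨h1, fun h4 => h2 ⟨h3, h4⟩⟩
    · exact Or.inl ⟨h1, h3⟩
  isOpen_sUnion := by
    rintro S hS ⟨U, hU, h⟩ n
    refine (hS U hU h n).subset ?_
    rintro d ⟨h1, h2⟩
    exact ⟨h1, fun h3 => h2 ⟨U, hU, h3⟩⟩

lemma isOpen_A_iff (U : Set A) :
    IsOpen U ↔ (A.pt ∈ U → ∀ n, {d : D | d.1 = n ∧ A.iso d ∉ U}.Finite) := Iff.rfl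

lemma isOpen_A_of_notMem {U : Set A} (h : A.pt ∉ U) : IsOpen U :=
  (isOpen_A_iff U).mpr (fun h' => absurd h' h)

lemma isOpen_iso (d : D) : IsOpen ({A.iso d} : Set A) :=
  isOpen_A_of_notMem (by simp)

lemma isClosed_iso (d : D) : IsClosed ({A.iso d} : Set A) := by
  rw [← isOpen_compl_iff, isOpen_A_iff]
  intro _ n
  refine (finite_singleton d).subset ?_
  rintro d' ⟨-, h⟩
  simpa using h

instance : T0Space A := by
  refine t0Space_iff_exists_isOpen_xor_mem A |>.mpr ?_
  intro x y hxy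
  cases x with
  | pt =>
    cases y with
    | pt => exact absurd rfl hxy
    | iso d => exact ⟨{A.iso d}, isOpen_iso d, Or.inr ⟨rfl, by simp⟩⟩
  | iso d => exact ⟨{A.iso d}, isOpen_iso d, Or.inl ⟨rfl, fun h => hxy (h.symm)⟩⟩

instance : CompletelyRegularSpace A := by
  apply CompletelyRegularSpace.of_isTopologicalBasis_clopens
  refine TopologicalSpace.isTopologicalBasis_of_isOpen_of_nhds (fun u hu => hu.isOpen) ?_
  intro a U ha hU
  cases a with
  | pt =>
    exact ⟨U, ⟨⟨isOpen_A_of_notMem (fun h => h ha)⟩, hU⟩, ha, Subset.rfl⟩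
  | iso d =>
    exact ⟨{A.iso d}, ⟨isClosed_iso d, isOpen_iso d⟩, rfl, singleton_subset_iff.mpr ha⟩

instance : T35Space A where

/-- The compact part of level `n` of a column. -/
def Lev (n : ℕ) : Set A := {a | a = A.pt ∨ ∃ d : D, d.1 = n ∧ a = A.iso d}

lemma isCompact_Lev (n : ℕ) : IsCompact (Lev n) := by
  refine isCompact_of_finite_subcover (fun {ι} U hU hcov => ?_)
  obtain ⟨i0, hi0⟩ := mem_iUnion.mp (hcov (Or.inl rfl : A.pt ∈ Lev n))
  have hfin : (A.iso '' {d : D | d.1 = n ∧ A.iso d ∉ U i0}).Finite :=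
    ((isOpen_A_iff _).mp (hU i0) hi0 n).image _
  obtain ⟨t, ht⟩ := hfin.isCompact.elim_finite_subcover U hU (by
    rintro _ ⟨d, hd, rfl⟩
    exact hcov (Or.inr ⟨d, hd.1, rfl⟩))
  classical
  refine ⟨insert i0 t, ?_⟩
  intro a ha
  by_cases h : a ∈ U i0
  · exact mem_biUnion (Finset.mem_insert_self i0 t) h
  · rcases ha with rfl | ⟨d, hd, rfl⟩
    · exact absurd hi0 h
    · obtain ⟨i, hi, hi'⟩ := mem_iUnion₂.mp (ht ⟨d, ⟨hd, h⟩, rfl⟩)
      exact mem_biUnion (Finset.mem_insert_of_mem hi) hi'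

lemma exists_mem_Lev (a : A) : ∃ n, a ∈ Lev n := by
  cases a with
  | pt => exact ⟨0, Or.inl rfl⟩
  | iso d => exact ⟨d.1, Or.inr ⟨d, rfl, rfl⟩⟩

/-- The cell. -/
abbrev W : Type := ℕ → A

/-- The base point of the cell. -/
def oo : W := fun _ => A.pt

/-- The inclusion of the `k`-th column. -/
def ee (k : ℕ) (a : A) : W := fun l => if l = k then a else A.pt

/-- Erasing the first `j` coordinates. -/
def bb (j : ℕ) (x : W) : W := fun l => if l < j then A.pt else x l

lemma ee_pt (k : ℕ) : ee k A.pt = oo := by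
  funext l; simp [ee, oo]

lemma ee_self (k : ℕ) (a : A) : ee k a k = a := by simp [ee]

lemma ee_ne {k l : ℕ} (h : l ≠ k) (a : A) : ee k a l = A.pt := by simp [ee, h]

lemma bb_ee {j k : ℕ} (h : j ≤ k) (a : A) : bb j (ee k a) = ee k a := by
  funext l
  unfold bb
  split_ifs with h1
  · exact (ee_ne (by omega) a).symm
  · rfl

lemma continuous_ee (k : ℕ) : Continuous (ee k) := by
  refine continuous_pi (fun l => ?_)
  unfold ee
  split_ifs
  · exact continuous_id
  · exact continuous_const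

lemma continuous_bb (j : ℕ) : Continuous (bb j) := by
  refine continuous_pi (fun l => ?_)
  unfold bb
  split_ifs
  · exact continuous_const
  · exact continuous_apply l

lemma tendsto_bb (x : W) : Tendsto (fun j => bb j x) atTop (𝓝 oo) := by
  refine tendsto_pi_nhds.mpr (fun l => ?_)
  refine tendsto_const_nhds.congr' ?_
  filter_upwards [eventually_gt_atTop l] with j hj
  simp [bb, oo, hj]

/-- Free sequences for finite valued set mappings on uncountable sets. -/
lemma exists_free_seq {α : Type} (E : ℕ → Set α) (hE : ∀ j, ¬ (E j).Countable)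
    (F : ℕ → α → Set α) (hF : ∀ j d, (F j d).Finite) :
    ∃ x : ℕ → α, (∀ j, x j ∈ E j) ∧ ∀ j l, l ≠ j → x l ∉ F j (x j) := by
  classical
  let Inv : ℕ → (ℕ → α) → Prop := fun l x =>
    ∀ j, l ≤ j → ¬ {d | d ∈ E j ∧ ∀ i, i < l → x i ∉ F j d}.Countable
  have step : ∀ l (x : ℕ → α), Inv l x → ∃ a, (a ∈ E l ∧ (∀ i, i < l → x i ∉ F l a) ∧
      (∀ i, i < l → a ∉ F i (x i))) ∧ Inv (l + 1) (Function.update x l a) := by
    intro l x hx
    let B : ℕ → Set α := fun j =>
      {a | l ≤ j ∧ {d | (d ∈ E j ∧ ∀ i, i < l → x i ∉ F j d) ∧ a ∉ F j d}.Countable}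
    have hB : ∀ j, (B j).Finite := by
      intro j
      by_contra hinf
      have hinf' : (B j).Infinite := hinf
      let a : ℕ ↪ B j := hinf'.natEmbedding
      have hl : l ≤ j := (a 0).2.1
      have hc : (⋃ k, {d | (d ∈ E j ∧ ∀ i, i < l → x i ∉ F j d) ∧ (a k).1 ∉ F j d}).Countable :=
        countable_iUnion (fun k => (a k).2.2)
      have hne : ¬ {d | d ∈ E j ∧ ∀ i, i < l → x i ∉ F j d} ⊆
          ⋃ k, {d | (d ∈ E j ∧ ∀ i, i < l → x i ∉ F j d) ∧ (a k).1 ∉ F j d} :=
        fun h => hx j hl (hc.mono h)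
      obtain ⟨d, hd, hd'⟩ := not_subset.mp hne
      have hall : ∀ k, (a k).1 ∈ F j d := by
        intro k
        by_contra hk
        exact hd' (mem_iUnion.mpr ⟨k, hd, hk⟩)
      exact (infinite_of_injective_forall_mem (f := fun k => (a k).1)
        (Subtype.val_injective.comp a.injective) hall) (hF j d)
    have hc : ((⋃ j, B j) ∪ ⋃ i, F i (x i)).Countable :=
      (countable_iUnion (fun j => (hB j).countable)).union
        (countable_iUnion (fun i => (hF i _).countable))
    have hne : ¬ {d | d ∈ E l ∧ ∀ i, i < l → x i ∉ F l d} ⊆ (⋃ j, B j) ∪ ⋃ i, F i (x i) :=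
      fun h => hx l le_rfl (hc.mono h)
    obtain ⟨a, ha, ha'⟩ := not_subset.mp hne
    refine ⟨a, ⟨ha.1, ha.2, fun i _ h => ha' (Or.inr (mem_iUnion.mpr ⟨i, h⟩))⟩, ?_⟩
    intro j hj hcount
    apply ha'
    refine Or.inl (mem_iUnion.mpr ⟨j, by omega, hcount.mono ?_⟩)
    rintro d ⟨⟨h1, h2⟩, h3⟩
    refine ⟨h1, fun i hi => ?_⟩
    rcases Nat.lt_succ_iff_lt_or_eq.mp hi with h4 | h4
    · rw [Function.update_of_ne h4.ne]; exact h2 i h4
    · rw [h4, Function.update_self]; exact h3
  have hne : Nonempty α := by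
    by_contra h
    have : IsEmpty α := not_nonempty_iff.mp h
    exact hE 0 (to_countable _)
  choose! g hg using step
  let sq : ℕ → ℕ → α := fun l =>
    Nat.rec (fun _ => Classical.arbitrary α) (fun l s => Function.update s l (g l s)) l
  have hsq : ∀ l, sq (l + 1) = Function.update (sq l) l (g l (sq l)) := fun l => rfl
  have hinv : ∀ l, Inv l (sq l) := by
    intro l
    induction l with
    | zero =>
      intro j _ h
      refine hE j (h.mono ?_)
      intro d hd
      exact ⟨hd, fun i hi => absurd hi (Nat.not_lt_zero i)⟩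
    | succ l ih => rw [hsq]; exact (hg l _ ih).2
  have hstab : ∀ l i, i < l → sq l i = g i (sq i) := by
    intro l
    induction l with
    | zero => intro i hi; exact absurd hi (Nat.not_lt_zero i)
    | succ l ih =>
      intro i hi
      rw [hsq]
      rcases Nat.lt_succ_iff_lt_or_eq.mp hi with h4 | h4
      · rw [Function.update_of_ne h4.ne]; exact ih i h4
      · rw [h4, Function.update_self]
  refine ⟨fun l => g l (sq l), fun j => (hg j _ (hinv j)).1.1, fun j l hl => ?_⟩
  rcases lt_or_gt_of_ne hl with h | h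
  · have := (hg j _ (hinv j)).1.2.1 l h
    rwa [hstab j l h] at this
  · have := (hg l _ (hinv l)).1.2.2 j h
    rwa [hstab l j h] at this

/-- In every countable closed cover of the cell some member contains all but countably many
points of some column. -/
lemma cover_cell (C : ℕ → Set W) (hC : ∀ j, IsClosed (C j)) (hcov : ∀ x, ∃ j, x ∈ C j) :
    ∃ j, {d : D | ee j (A.iso d) ∉ C j}.Countable := by
  by_contra hcon
  push Not at hcon
  have h1 : ∀ j, ∃ n, ¬ {d : D | d.1 = n ∧ ee j (A.iso d) ∉ C j}.Countable := by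
    intro j
    by_contra h
    push Not at h
    refine hcon j ((countable_iUnion h).mono ?_)
    intro d hd
    exact mem_iUnion.mpr ⟨d.1, rfl, hd⟩
  choose n hn using h1
  have h2 : ∀ j (d : D), ∃ F : Set D, F.Finite ∧ (ee j (A.iso d) ∉ C j →
      ∀ x : ℕ → D, (∀ l, (x l).1 = n l) → x j = d → (∀ l, l ≠ j → x l ∉ F) →
        (fun l => A.iso (x l)) ∉ C j) := by
    intro j d
    by_cases hd : ee j (A.iso d) ∈ C j
    · exact ⟨∅, finite_empty, fun h => absurd hd h⟩
    obtain ⟨I, u, hu, hI⟩ := isOpen_pi_iff.mp (hC j).isOpen_compl _ hd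
    refine ⟨⋃ l ∈ I.erase j, {d' : D | d'.1 = n l ∧ A.iso d' ∉ u l}, ?_, ?_⟩
    · refine Finite.biUnion (Finset.finite_toSet _) (fun l hl => ?_)
      have hl' := Finset.mem_erase.mp hl
      have h3 := hu l hl'.2
      rw [ee_ne hl'.1] at h3
      exact (isOpen_A_iff _).mp h3.1 h3.2 _
    · intro _ x hx hxj hxF
      refine hI (fun l hl => ?_)
      by_cases hlj : l = j
      · have h3 := (hu l hl).2
        rw [hlj, ee_self] at h3
        simp only [hlj, hxj]
        exact h3
      · by_contra h4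
        exact hxF l hlj (mem_biUnion (Finset.mem_erase.mpr ⟨hlj, hl⟩) ⟨hx l, h4⟩)
  choose F hF hF' using h2
  obtain ⟨x, hx, hx'⟩ := exists_free_seq _ hn F hF
  obtain ⟨j, hj⟩ := hcov (fun l => A.iso (x l))
  exact hF' j (x j) (hx j).2 x (fun l => (hx l).1) rfl (fun l hl => hx' j l hl) hj

/-- The index set of the copies of the cell. -/
abbrev I : Type := ℕ × (ℕ ⊕ ℕ)

/-- The space which is a countable intersection of sigma compact sets. -/
abbrev Y : Type := I × W

lemma Y_ksd : ∃ (K : Type) (_ : TopologicalSpace K) (_ : CompactSpace K) (_ : T2Space K)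
    (e : Y → K), Topology.IsEmbedding e ∧
      ∃ C : ℕ → ℕ → Set K, (∀ n m, IsCompact (C n m)) ∧ Set.range e = ⋂ n, ⋃ m, C n m := by
  obtain ⟨en, hen⟩ := exists_surjective_nat (I × ℕ)
  refine ⟨StoneCech I × (ℕ → StoneCech A), inferInstance, inferInstance, inferInstance,
    Prod.map stoneCechUnit (Pi.map (fun _ => stoneCechUnit)),
    isEmbedding_stoneCechUnit.prodMap (IsEmbedding.piMap (fun _ => isEmbedding_stoneCechUnit)),
    fun m j => {stoneCechUnit (en j).1} ×ˢ {x | x m ∈ stoneCechUnit '' Lev (en j).2}, ?_, ?_⟩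
  · intro m j
    refine isCompact_singleton.prod (IsClosed.isCompact ?_)
    exact ((isCompact_Lev _).image continuous_stoneCechUnit).isClosed.preimage
      (continuous_apply m)
  · apply Subset.antisymm
    · rintro _ ⟨⟨i, x⟩, rfl⟩
      refine mem_iInter.mpr (fun m => ?_)
      obtain ⟨n, hn⟩ := exists_mem_Lev (x m)
      obtain ⟨j, hj⟩ := hen (i, n)
      refine mem_iUnion.mpr ⟨j, ?_⟩
      simp only [hj]
      exact ⟨rfl, x m, hn, rfl⟩
    · rintro ⟨z1, z2⟩ hz
      have h := mem_iInter.mp hz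
      obtain ⟨j, hj⟩ := mem_iUnion.mp (h 0)
      have h2 : ∀ m, ∃ a, stoneCechUnit a = z2 m := by
        intro m
        obtain ⟨j, hj⟩ := mem_iUnion.mp (h m)
        obtain ⟨a, -, ha⟩ := hj.2
        exact ⟨a, ha⟩
      choose a ha using h2
      refine ⟨((en j).1, a), Prod.ext ?_ ?_⟩
      · exact (mem_singleton_iff.mp hj.1).symm
      · funext m; exact ha m

end Pool.Agent.Lib.MP_bdd006_gt
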