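import Pool.Agent.Lib.MP_bdd006_gt.Sig

/-!
A gauge `nu` on the space of real sequences whose sublevel sets are tube shaped, and a family
of homeomorphisms `lam s` from the whole space onto the set where `nu` exceeds `s`,
with inverse `mu s`, which is the identity for `s = 0`.
-/

set_option autoImplicit false

namespace Pool.Agent.Lib.MP_bdd006_gt

open Filter Topology Set

noncomputable def nu0 (t : ℝ) : ℝ := max (-sg t) (sg t / 4)

lemma nu0_nonneg (t : ℝ) : 0 ≤ nu0 t := by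
  unfold nu0
  rcases le_total 0 (sg t) with h | h
  · exact le_max_of_le_right (by linarith)
  · exact le_max_of_le_left (by linarith)

lemma nu0_le_one (t : ℝ) : nu0 t ≤ 1 := by
  have := abs_lt.mp (abs_sg_lt t)
  exact max_le (by linarith) (by linarith)

lemma nu0_zero : nu0 0 = 0 := by simp [nu0, sg_zero]

lemma nu0_eq_zero {t : ℝ} (h : nu0 t ≤ 0) : t = 0 := by
  unfold nu0 at h
  have h1 := (le_max_left _ _).trans h
  have h2 := (le_max_right _ _).trans h
  exact sg_eq_zero (by linarith)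

lemma continuous_nu0 : Continuous nu0 := by
  unfold nu0
  exact continuous_sg.neg.max (continuous_sg.div_const 4)

/-- The gauge. -/
noncomputable def nu (e : ℕ → ℝ) : ℝ := ⨆ n, nu0 (e n) * wt n

lemma nu_term_le (e : ℕ → ℝ) (n : ℕ) : nu0 (e n) * wt n ≤ wt n := by
  have := nu0_le_one (e n)
  have h2 := wt_pos n
  nlinarith

lemma le_nu (e : ℕ → ℝ) (n : ℕ) : nu0 (e n) * wt n ≤ nu e :=
  le_ciSup (bdd_of_le_wt (nu_term_le e)) n

lemma nu_nonneg (e : ℕ → ℝ) : 0 ≤ nu e :=
  (mul_nonneg (nu0_nonneg _) (wt_pos 0).le).trans (le_nu e 0)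

lemma nu_zero : nu 0 = 0 := by simp [nu, nu0_zero]

lemma nu_pos {e : ℕ → ℝ} (h : e ≠ 0) : 0 < nu e := by
  by_contra hc
  apply h
  funext n
  have h1 : nu0 (e n) * wt n ≤ 0 := (le_nu e n).trans (not_lt.mp hc)
  have h2 := wt_pos n
  apply nu0_eq_zero
  by_contra h3
  have := mul_pos (not_le.mp h3) h2
  linarith

lemma continuous_nu : Continuous nu :=
  continuous_iSup_wt (f := fun n (e : ℕ → ℝ) => nu0 (e n) * wt n)
    (fun n => (continuous_nu0.comp (continuous_apply n)).mul continuous_const)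
    (fun n _ => mul_nonneg (nu0_nonneg _) (wt_pos n).le) (fun n e => nu_term_le e n)

/-- The direction of the tube at level `s`. -/
noncomputable def xi (s : ℝ) (n : ℕ) : ℝ := max 0 (min (s - wt n / 4) (wt n - s))

lemma xi_nonneg (s : ℝ) (n : ℕ) : 0 ≤ xi s n := le_max_left _ _

lemma xi_eq_zero {s : ℝ} {n : ℕ} (h : s ≤ wt n / 4) : xi s n = 0 :=
  max_eq_left ((min_le_left _ _).trans (by linarith))

lemma xi_zero (n : ℕ) : xi 0 n = 0 := xi_eq_zero (by have := wt_pos n; linarith)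

lemma xi_pos_imp {s : ℝ} {n : ℕ} (h : 0 < xi s n) : wt n / 4 < s ∧ s < wt n := by
  unfold xi at h
  rcases lt_max_iff.mp h with h | h
  · exact absurd h (lt_irrefl _)
  · have := lt_min_iff.mp h
    constructor <;> linarith [this.1, this.2]

lemma exists_xi_pos {s : ℝ} (h0 : 0 < s) (h1 : s < 1) : ∃ n, 0 < xi s n := by
  have hex : ∃ n, wt (n + 1) ≤ s := by
    obtain ⟨N, hN⟩ := exists_wt_lt h0
    exact ⟨N, (wt_anti (Nat.le_succ N)).trans hN.le⟩
  classical
  refine ⟨Nat.find hex, ?_⟩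
  have h2 : wt (Nat.find hex + 1) ≤ s := Nat.find_spec hex
  have h3 : s < wt (Nat.find hex) := by
    rcases hn : Nat.find hex with _ | n
    · simpa [wt] using h1
    · have := Nat.find_min hex (m := n) (by omega)
      exact not_le.mp this
  have h4 : wt (Nat.find hex) / 4 < wt (Nat.find hex + 1) := by
    unfold wt
    have : (0 : ℝ) ≤ (Nat.find hex : ℕ) := Nat.cast_nonneg _
    rw [div_div, Nat.cast_add, Nat.cast_one]
    exact one_div_lt_one_div_of_lt (by positivity) (by linarith)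
  unfold xi
  exact lt_max_of_lt_right (lt_min (by linarith) (by linarith))

lemma continuous_xi (n : ℕ) : Continuous (fun s => xi s n) := by
  unfold xi; fun_prop

/-- Moving backwards along the tube direction. -/
noncomputable def bk (s : ℝ) (y : ℕ → ℝ) (τ : ℝ) : ℕ → ℝ := fun n => y n - τ * xi s n

lemma nu_bk_le (s : ℝ) (y : ℕ → ℝ) {a b : ℝ} (h : a ≤ b) :
    nu (bk s y a) ≤ max s (nu (bk s y b)) := by
  refine ciSup_le (fun n => ?_)
  have hw := wt_pos n
  rcases (xi_nonneg s n).lt_or_eq with hx | hx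
  · obtain ⟨hs, -⟩ := xi_pos_imp hx
    have h1 : bk s y b n ≤ bk s y a n := by
      unfold bk; nlinarith
    have h2 := sg_mono h1
    rcases le_total (-sg (bk s y a n)) (sg (bk s y a n) / 4) with h3 | h3
    · rw [nu0, max_eq_right h3]
      refine le_max_of_le_left ?_
      have := abs_lt.mp (abs_sg_lt (bk s y a n))
      nlinarith [this.2]
    · rw [nu0, max_eq_left h3]
      refine le_max_of_le_right (le_trans ?_ (le_nu _ n))
      have h4 : -sg (bk s y a n) ≤ nu0 (bk s y b n) := le_max_of_le_left (by linarith)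
      exact mul_le_mul_of_nonneg_right h4 hw.le
  · refine le_max_of_le_right (le_trans (le_of_eq ?_) (le_nu _ n))
    simp [bk, ← hx]

/-- The function whose level one determines the displacement. -/
noncomputable def Gf (s : ℝ) (y : ℕ → ℝ) (τ : ℝ) : ℝ := τ * max 0 (nu (bk s y τ) - s)

lemma pos_part_mono (s : ℝ) (y : ℕ → ℝ) {a b : ℝ} (h : a ≤ b) :
    max 0 (nu (bk s y a) - s) ≤ max 0 (nu (bk s y b) - s) := by
  have := nu_bk_le s y h
  refine max_le (le_max_left _ _) ?_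
  rcases le_max_iff.mp this with h1 | h1
  · exact le_max_of_le_left (by linarith)
  · exact le_max_of_le_right (by linarith)

lemma Gf_mono (s : ℝ) (y : ℕ → ℝ) {a b : ℝ} (ha : 0 ≤ a) (h : a ≤ b) : Gf s y a ≤ Gf s y b :=
  mul_le_mul h (pos_part_mono s y h) (le_max_left _ _) (ha.trans h)

lemma Gf_strict (s : ℝ) (y : ℕ → ℝ) {a b : ℝ} (ha : 0 ≤ a) (h : a < b) (hp : 0 < Gf s y a) :
    Gf s y a < Gf s y b := by
  have h1 := pos_part_mono s y h.le
  have h2 : 0 < max 0 (nu (bk s y a) - s) := by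
    by_contra hc
    have : max 0 (nu (bk s y a) - s) = 0 := le_antisymm (not_lt.mp hc) (le_max_left _ _)
    rw [Gf, this, mul_zero] at hp
    exact lt_irrefl _ hp
  unfold Gf
  nlinarith

lemma continuous_Gf : Continuous (fun p : (ℝ × (ℕ → ℝ)) × ℝ => Gf p.1.1 p.1.2 p.2) := by
  unfold Gf
  have h1 : Continuous (fun p : (ℝ × (ℕ → ℝ)) × ℝ => bk p.1.1 p.1.2 p.2) := by
    refine continuous_pi (fun n => ?_)
    unfold bk
    exact ((continuous_apply n).comp (continuous_snd.comp continuous_fst)).sub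
      (continuous_snd.mul ((continuous_xi n).comp (continuous_fst.comp continuous_fst)))
  exact continuous_snd.mul (continuous_const.max
    ((continuous_nu.comp h1).sub (continuous_fst.comp continuous_fst)))

lemma exists_Gf_eq_one {s : ℝ} (h0 : 0 < s) (h1 : s < 1) (y : ℕ → ℝ) :
    ∃ τ, 0 < τ ∧ Gf s y τ = 1 := by
  obtain ⟨n, hn⟩ := exists_xi_pos h0 h1
  obtain ⟨-, hs⟩ := xi_pos_imp hn
  have hw := wt_pos n
  -- a level strictly between s / wt n and one
  set c : ℝ := (s / wt n + 1) / 2 with hc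
  have hsw : s / wt n < 1 := (div_lt_one hw).mpr hs
  have hsw0 : 0 < s / wt n := div_pos h0 hw
  have hc1 : |(-c)| < 1 := by
    rw [abs_neg, abs_of_pos (by linarith)]; linarith
  set τ0 : ℝ := (y n - sgi (-c)) / xi s n with hτ0
  have h2 : bk s y τ0 n = sgi (-c) := by
    unfold bk; rw [hτ0]; field_simp; ring
  have h3 : s < nu (bk s y τ0) := by
    refine lt_of_lt_of_le ?_ (le_nu _ n)
    have h4 : c ≤ nu0 (bk s y τ0 n) := by
      rw [h2, nu0, sg_sgi hc1]; exact le_max_of_le_left (by linarith)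
    have h5 : s = s / wt n * wt n := by field_simp
    have h6 : s / wt n < c := by linarith
    nlinarith
  set δ : ℝ := nu (bk s y τ0) - s with hδ
  have hδ0 : 0 < δ := by linarith
  set τ1 : ℝ := max τ0 δ⁻¹ with hτ1
  have hτ1pos : 0 < τ1 := lt_max_of_lt_right (inv_pos.mpr hδ0)
  have h7 : 1 ≤ Gf s y τ1 := by
    have h8 : δ ≤ max 0 (nu (bk s y τ1) - s) :=
      (le_max_right _ _).trans (pos_part_mono s y (le_max_left τ0 δ⁻¹))
    have h9 : δ⁻¹ ≤ τ1 := le_max_right _ _
    calc (1 : ℝ) = δ⁻¹ * δ := (inv_mul_cancel₀ hδ0.ne').symm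
      _ ≤ τ1 * max 0 (nu (bk s y τ1) - s) :=
        mul_le_mul h9 h8 hδ0.le hτ1pos.le
  have hcont : Continuous (fun τ => Gf s y τ) :=
    continuous_Gf.comp (f := fun τ : ℝ => (((s, y), τ) : (ℝ × (ℕ → ℝ)) × ℝ)) (by fun_prop)
  have h10 : Gf s y 0 = 0 := by simp [Gf]
  obtain ⟨τ, hτ, hτ'⟩ := intermediate_value_Icc hτ1pos.le hcont.continuousOn
    (show (1 : ℝ) ∈ Icc (Gf s y 0) (Gf s y τ1) from ⟨by rw [h10]; exact zero_le_one, h7⟩)
  refine ⟨τ, ?_, hτ'⟩
  rcases hτ.1.lt_or_eq with h | h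
  · exact h
  · simp only at hτ'
    rw [← h, h10] at hτ'
    exact absurd hτ' zero_ne_one

open Classical in
/-- The displacement. -/
noncomputable def tau (s : ℝ) (y : ℕ → ℝ) : ℝ :=
  if h : ∃ τ, 0 < τ ∧ Gf s y τ = 1 then h.choose else 0

lemma tau_spec {s : ℝ} (h0 : 0 < s) (h1 : s < 1) (y : ℕ → ℝ) :
    0 < tau s y ∧ Gf s y (tau s y) = 1 := by
  have h := exists_Gf_eq_one h0 h1 y
  rw [tau, dif_pos h]
  exact h.choose_spec

lemma tau_lt_of {s : ℝ} (h0 : 0 < s) (h1 : s < 1) (y : ℕ → ℝ) {a : ℝ} (ha : 0 ≤ a)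
    (h : 1 < Gf s y a) : tau s y < a := by
  by_contra hc
  have := Gf_mono s y ha (not_lt.mp hc)
  rw [(tau_spec h0 h1 y).2] at this
  linarith

lemma lt_tau_of {s : ℝ} (h0 : 0 < s) (h1 : s < 1) (y : ℕ → ℝ) {a : ℝ}
    (h : Gf s y a < 1) : a < tau s y := by
  by_contra hc
  have := Gf_mono s y (tau_spec h0 h1 y).1.le (not_lt.mp hc)
  rw [(tau_spec h0 h1 y).2] at this
  linarith

lemma tau_unique {s : ℝ} (h0 : 0 < s) (h1 : s < 1) (y : ℕ → ℝ) {a : ℝ} (ha : 0 < a)
    (h : Gf s y a = 1) : tau s y = a := by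
  obtain ⟨hp, he⟩ := tau_spec h0 h1 y
  rcases lt_trichotomy (tau s y) a with h2 | h2 | h2
  · have := Gf_strict s y hp.le h2 (by rw [he]; exact zero_lt_one)
    rw [he, h] at this; exact absurd this (lt_irrefl _)
  · exact h2
  · have := Gf_strict s y ha.le h2 (by rw [h]; exact zero_lt_one)
    rw [he, h] at this; exact absurd this (lt_irrefl _)

lemma continuousAt_tau {p0 : ℝ × (ℕ → ℝ)} (h0 : 0 < p0.1) (h1 : p0.1 < 1) :
    ContinuousAt (fun p : ℝ × (ℕ → ℝ) => tau p.1 p.2) p0 := by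
  obtain ⟨hp, he⟩ := tau_spec h0 h1 p0.2
  have hG : ∀ a : ℝ, ContinuousAt (fun p : ℝ × (ℕ → ℝ) => Gf p.1 p.2 a) p0 := fun a =>
    (continuous_Gf.comp (f := fun p : ℝ × (ℕ → ℝ) => ((p, a) : (ℝ × (ℕ → ℝ)) × ℝ))
      (by fun_prop)).continuousAt
  have e0 : ∀ᶠ p : ℝ × (ℕ → ℝ) in 𝓝 p0, 0 < p.1 :=
    continuous_fst.continuousAt.eventually (lt_mem_nhds h0)
  have e1 : ∀ᶠ p : ℝ × (ℕ → ℝ) in 𝓝 p0, p.1 < 1 :=
    continuous_fst.continuousAt.eventually (gt_mem_nhds h1)
  refine tendsto_order.mpr ⟨fun a ha => ?_, fun a ha => ?_⟩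
  · have h2 : max a (tau p0.1 p0.2 / 2) < tau p0.1 p0.2 := max_lt ha (by linarith)
    have h3 : 0 < max a (tau p0.1 p0.2 / 2) := lt_max_of_lt_right (by linarith)
    have h4 : Gf p0.1 p0.2 (max a (tau p0.1 p0.2 / 2)) < 1 := by
      by_contra hc
      have := Gf_strict p0.1 p0.2 h3.le h2 (by linarith [not_lt.mp hc])
      rw [he] at this
      exact hc this
    filter_upwards [e0, e1, (hG _).eventually (gt_mem_nhds h4)] with p q0 q1 q2
    exact lt_of_le_of_lt (le_max_left _ _) (lt_tau_of q0 q1 p.2 q2)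
  · have h4 : 1 < Gf p0.1 p0.2 a := by
      have := Gf_strict p0.1 p0.2 hp.le ha (by rw [he]; exact zero_lt_one)
      rwa [he] at this
    filter_upwards [e0, e1, (hG _).eventually (lt_mem_nhds h4)] with p q0 q1 q2
    exact tau_lt_of q0 q1 p.2 (hp.le.trans ha.le) q2

/-- Pushing off the tube. -/
noncomputable def lam (s : ℝ) (y : ℕ → ℝ) : ℕ → ℝ := bk s y (tau s y)

/-- The inverse of `lam`. -/
noncomputable def mu (s : ℝ) (x : ℕ → ℝ) : ℕ → ℝ := fun n => x n + (nu x - s)⁻¹ * xi s n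

lemma lam_zero (y : ℕ → ℝ) : lam 0 y = y := by
  funext n; simp [lam, bk, xi_zero]

lemma mu_zero (x : ℕ → ℝ) : mu 0 x = x := by
  funext n; simp [mu, xi_zero]

lemma lam_key {s : ℝ} (h0 : 0 < s) (h1 : s < 1) (y : ℕ → ℝ) :
    s < nu (lam s y) ∧ (nu (lam s y) - s)⁻¹ = tau s y := by
  obtain ⟨hp, he⟩ := tau_spec h0 h1 y
  unfold Gf at he
  have h2 : 0 < nu (lam s y) - s := by
    by_contra hc
    have : max 0 (nu (bk s y (tau s y)) - s) = 0 := max_eq_left (not_lt.mp hc)
    rw [this, mul_zero] at he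
    exact zero_ne_one he
  have h3 : max 0 (nu (bk s y (tau s y)) - s) = nu (lam s y) - s := max_eq_right h2.le
  rw [h3] at he
  exact ⟨by linarith, inv_eq_of_mul_eq_one_left he⟩

lemma mu_lam {s : ℝ} (h0 : 0 ≤ s) (h1 : s < 1) (y : ℕ → ℝ) : mu s (lam s y) = y := by
  rcases h0.lt_or_eq with h | h
  · funext n
    rw [mu, (lam_key h h1 y).2]
    simp [lam, bk]
  · rw [← h, lam_zero, mu_zero]

lemma lam_mu {s : ℝ} (h0 : 0 < s) (h1 : s < 1) {x : ℕ → ℝ} (hx : s < nu x) :
    lam s (mu s x) = x := by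
  have h2 : 0 < nu x - s := by linarith
  have h3 : bk s (mu s x) (nu x - s)⁻¹ = x := by
    funext n; simp [bk, mu]
  have h4 : tau s (mu s x) = (nu x - s)⁻¹ := by
    refine tau_unique h0 h1 _ (inv_pos.mpr h2) ?_
    rw [Gf, h3, max_eq_right h2.le, inv_mul_cancel₀ h2.ne']
  rw [lam, h4, h3]

/-- The size of the first group of coordinates. -/
noncomputable def rho (u : ℕ → ℝ) : ℝ := ⨆ n, |sg (u n)| * wt n

lemma rho_term_le (u : ℕ → ℝ) (n : ℕ) : |sg (u n)| * wt n ≤ wt n := by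
  have := abs_sg_lt (u n)
  have h2 := wt_pos n
  nlinarith

lemma le_rho (u : ℕ → ℝ) (n : ℕ) : |sg (u n)| * wt n ≤ rho u :=
  le_ciSup (bdd_of_le_wt (rho_term_le u)) n

lemma rho_nonneg (u : ℕ → ℝ) : 0 ≤ rho u :=
  (mul_nonneg (abs_nonneg _) (wt_pos 0).le).trans (le_rho u 0)

lemma rho_lt_one (u : ℕ → ℝ) : rho u < 1 := by
  refine iSup_lt_of_le_wt (rho_term_le u) zero_lt_one (fun n => ?_)
  have := abs_sg_lt (u n)
  have h2 := wt_pos n
  have h3 := wt_le_one n
  have h4 := abs_nonneg (sg (u n))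
  nlinarith

lemma rho_zero : rho 0 = 0 := by simp [rho, sg_zero]

lemma eq_zero_of_rho {u : ℕ → ℝ} (h : rho u = 0) : u = 0 := by
  funext n
  have h1 := le_rho u n
  have h2 := wt_pos n
  have h3 := abs_nonneg (sg (u n))
  apply sg_eq_zero
  apply abs_eq_zero.mp
  rw [h] at h1
  nlinarith

lemma continuous_rho : Continuous rho :=
  continuous_iSup_wt (f := fun n (u : ℕ → ℝ) => |sg (u n)| * wt n)
    (fun n => (continuous_sg.comp (continuous_apply n)).abs.mul continuous_const)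
    (fun n _ => mul_nonneg (abs_nonneg _) (wt_pos n).le) (fun n u => rho_term_le u n)

lemma wt_mul_lt_iff (n : ℕ) (a g : ℝ) : a * wt n < g ↔ a < ((n : ℝ) + 1) * g := by
  unfold wt
  rw [mul_one_div, div_lt_iff₀ (by positivity), mul_comm]

lemma adm_of_rho_lt {u : ℕ → ℝ} {g : ℝ} (h : rho u < g) (n : ℕ) : Adm n g (u n) :=
  Or.inl (lt_min (abs_sg_lt _) ((wt_mul_lt_iff n _ _).mp ((le_rho u n).trans_lt h)))

lemma rho_lt_of_adm {u : ℕ → ℝ} {g : ℝ} (hg : 0 < g) (h : ∀ n, Adm n g (u n)) : rho u < g :=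
  iSup_lt_of_le_wt (rho_term_le u) hg
    (fun n => (wt_mul_lt_iff n _ _).mpr (((h n).lt hg).trans_le (min_le_right _ _)))

lemma adm_lam (u e : ℕ → ℝ) (n : ℕ) : Adm n (nu (lam (rho u) e)) (u n) := by
  rcases (rho_nonneg u).lt_or_eq with h | h
  · exact adm_of_rho_lt (lam_key h (rho_lt_one u) e).1 n
  · right; rw [eq_zero_of_rho h.symm]; rfl

lemma rho_lt_nu_or {u e : ℕ → ℝ} (h : ∀ n, Adm n (nu e) (u n)) : rho u < nu e ∨ rho u = 0 := by
  rcases (nu_nonneg e).lt_or_eq with h1 | h1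
  · exact Or.inl (rho_lt_of_adm h1 h)
  · right
    have : u = 0 := by
      funext n
      have := h n
      rw [← h1] at this
      exact this.eq_zero
    rw [this, rho_zero]

lemma lam_mu_adm {u e : ℕ → ℝ} (h : ∀ n, Adm n (nu e) (u n)) :
    lam (rho u) (mu (rho u) e) = e := by
  rcases (rho_nonneg u).lt_or_eq with h0 | h0
  · rcases rho_lt_nu_or h with h1 | h1
    · exact lam_mu h0 (rho_lt_one u) h1
    · exact absurd h1 h0.ne'
  · rw [← h0, mu_zero, lam_zero]

section cont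
variable {Z : Type*} [TopologicalSpace Z] {z0 : Z} {u e : Z → ℕ → ℝ}

lemma eventually_xi_zero (hu : ContinuousAt u z0) (h : rho (u z0) = 0) (n : ℕ) :
    ∀ᶠ z in 𝓝 z0, xi (rho (u z)) n = 0 := by
  have h1 : ContinuousAt (fun z => rho (u z)) z0 := continuous_rho.continuousAt.comp hu
  have h2 : rho (u z0) < wt n / 4 := by rw [h]; have := wt_pos n; linarith
  filter_upwards [h1.eventually (gt_mem_nhds h2)] with z hz
  exact xi_eq_zero hz.le

lemma continuousAt_lam (hu : ContinuousAt u z0) (he : ContinuousAt e z0) (n : ℕ) :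
    ContinuousAt (fun z => lam (rho (u z)) (e z) n) z0 := by
  have h1 : ContinuousAt (fun z => rho (u z)) z0 := continuous_rho.continuousAt.comp hu
  have h2 : ContinuousAt (fun z => e z n) z0 := (continuous_apply n).continuousAt.comp he
  rcases (rho_nonneg (u z0)).lt_or_eq with h | h
  · have h3 : ContinuousAt (fun z => tau (rho (u z)) (e z)) z0 :=
      ContinuousAt.comp (g := fun p : ℝ × (ℕ → ℝ) => tau p.1 p.2)
        (f := fun z => (rho (u z), e z)) (continuousAt_tau h (rho_lt_one _)) (h1.prodMk he)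
    exact h2.sub (h3.mul ((continuous_xi n).continuousAt.comp h1))
  · refine h2.congr ?_
    filter_upwards [eventually_xi_zero hu h.symm n] with z hz
    simp [lam, bk, hz]

lemma continuousAt_mu (hu : ContinuousAt u z0) (he : ContinuousAt e z0)
    (h : ∀ n, Adm n (nu (e z0)) (u z0 n)) (n : ℕ) :
    ContinuousAt (fun z => mu (rho (u z)) (e z) n) z0 := by
  have h1 : ContinuousAt (fun z => rho (u z)) z0 := continuous_rho.continuousAt.comp hu
  have h2 : ContinuousAt (fun z => e z n) z0 := (continuous_apply n).continuousAt.comp he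
  rcases rho_lt_nu_or h with h3 | h3
  · have h4 : ContinuousAt (fun z => nu (e z)) z0 := continuous_nu.continuousAt.comp he
    exact h2.add (((h4.sub h1).inv₀ (sub_pos.mpr h3).ne').mul
      ((continuous_xi n).continuousAt.comp h1))
  · refine h2.congr ?_
    filter_upwards [eventually_xi_zero hu h3 n] with z hz
    simp [mu, hz]

end cont

end Pool.Agent.Lib.MP_bdd006_gt
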