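import Mathlib

/-!
Supports of points of the Stone-Cech compactification under a uniformly continuous map of
function spaces.
-/

namespace Pool.Agent.Lib.MP_bdd006_gt.Unif

open Set Topology Filter

universe u v w

/-- Continuous real functions with the pointwise structures. -/
abbrev Cp (X : Type u) [TopologicalSpace X] : Type u := {f : X → ℝ // Continuous f}

variable {X : Type u} {Y : Type v} [TopologicalSpace X] [TopologicalSpace Y] {K : Type w}
  [TopologicalSpace K]

lemma small {a : Cp Y → ℝ} (ha : UniformContinuous a) : ∃ (F : Finset Y) (n : ℕ), ∀ f g : Cp Y,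
    (∀ y ∈ F, |f.1 y - g.1 y| ≤ 1 / (n + 1 : ℝ)) → |a f - a g| ≤ 1 := by
  classical
  by_contra h
  push Not at h
  choose f g h1 h2 using h
  have h3 : Tendsto (fun s : Finset Y × ℕ => (f s.1 s.2, g s.1 s.2)) atTop (uniformity (Cp Y)) := by
    rw [uniformity_subtype, tendsto_comap_iff, Pi.uniformity, tendsto_iInf]
    intro y
    rw [tendsto_comap_iff, tendsto_uniformity_iff_dist_tendsto_zero]
    have h4 : Tendsto (fun s : Finset Y × ℕ => 1 / (s.2 + 1 : ℝ)) atTop (𝓝 0) :=
      tendsto_one_div_add_atTop_nhds_zero_nat.comp (by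
        rw [← prod_atTop_atTop_eq]; exact tendsto_snd)
    refine squeeze_zero' (.of_forall fun _ => dist_nonneg) ?_ h4
    filter_upwards [eventually_ge_atTop (({y}, 0) : Finset Y × ℕ)] with s hs
    exact h1 s.1 s.2 y (hs.1 (Finset.mem_singleton_self y))
  have h4 := tendsto_uniformity_iff_dist_tendsto_zero.1 (Tendsto.comp ha h3)
  obtain ⟨s, hs⟩ := (h4.eventually (gt_mem_nhds one_pos)).exists
  exact absurd (h2 s.1 s.2) (not_lt.2 (le_of_lt hs))

lemma lip {a : Cp Y → ℝ} (ha : UniformContinuous a) : ∃ (n k : ℕ) (v : Fin n → Y),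
    ∀ (f g : Cp Y) (t : ℝ), 0 ≤ t → (∀ i, |f.1 (v i) - g.1 (v i)| ≤ t) →
      |a f - a g| ≤ k * (1 + t) := by
  obtain ⟨F, n, h⟩ := small ha
  have key : ∀ (N : ℕ) (f g : Cp Y), (∀ y ∈ F, |f.1 y - g.1 y| ≤ (N + 1) / (n + 1 : ℝ)) →
      |a f - a g| ≤ N + 1 := by
    intro N
    induction N with
    | zero => simpa using h
    | succ N ih =>
      intro f g hfg
      let m : Cp Y := ⟨fun y => f.1 y + (g.1 y - f.1 y) / (N + 2), by
        have := f.2; have := g.2; fun_prop⟩
      have h1 := h f m fun y hy => by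
        have h0 := hfg y hy
        rw [show f.1 y - m.1 y = (f.1 y - g.1 y) / (N + 2) by simp only [m]; ring, abs_div,
          abs_of_pos (by positivity : (0 : ℝ) < N + 2), div_le_iff₀ (by positivity)]
        refine h0.trans (le_of_eq ?_)
        push_cast
        ring
      have h2 := ih m g fun y hy => by
        have h0 := hfg y hy
        rw [show m.1 y - g.1 y = (f.1 y - g.1 y) * ((N + 1) / (N + 2)) by
          simp only [m]; field_simp; ring, abs_mul,
          abs_of_pos (by positivity : (0 : ℝ) < (N + 1) / (N + 2))]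
        refine (mul_le_mul_of_nonneg_right h0 (by positivity)).trans (le_of_eq ?_)
        push_cast
        field_simp
        ring
      have h3 := abs_sub_le (a f) (a m) (a g)
      push_cast
      linarith
  refine ⟨F.card, n + 2, fun i => F.equivFin.symm i, fun f g t ht hfg => ?_⟩
  have h1 := Nat.le_ceil (t * (n + 1))
  have h2 := Nat.ceil_lt_add_one (show 0 ≤ t * (n + 1) by positivity)
  refine (key ⌈t * (n + 1)⌉₊ f g fun y hy => ?_).trans ?_
  · have h3 := hfg (F.equivFin ⟨y, hy⟩)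
    simp only [Equiv.symm_apply_apply] at h3
    refine h3.trans ?_
    rw [le_div_iff₀ (by positivity)]
    linarith
  · push_cast
    nlinarith [Nat.cast_nonneg (α := ℝ) n]

lemma freq_ev {a : X → ℝ} (ha : Continuous a) {p : StoneCech X} {c : ℝ}
    (h : ∃ᶠ x in comap stoneCechUnit (𝓝 p), a x ≤ c) :
    ∀ᶠ x in comap stoneCechUnit (𝓝 p), a x ≤ c + 1 := by
  have hc : c ≤ c + 2 := by linarith
  have h1 : Continuous fun x => projIcc c (c + 2) hc (a x) := continuous_projIcc.comp ha
  have h2 : Tendsto (fun x => (projIcc c (c + 2) hc (a x) : ℝ)) (comap stoneCechUnit (𝓝 p))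
      (𝓝 (stoneCechExtend h1 p).1) := by
    have h3 := ((continuous_subtype_val.comp (continuous_stoneCechExtend h1)).tendsto p).comp
      (tendsto_comap (f := stoneCechUnit))
    refine h3.congr fun x => ?_
    exact congrArg Subtype.val (congrFun (stoneCechExtend_extends h1) x)
  have h3 : (stoneCechExtend h1 p).1 ≤ c := by
    refine (isClosed_Iic (a := c)).mem_of_frequently_of_tendsto (h.mono fun x hx => ?_) h2
    rw [projIcc_of_le_left hc hx]
    exact mem_Iic.2 (le_refl c)
  filter_upwards [h2.eventually (gt_mem_nhds (show _ < c + 1 by linarith))] with x hx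
  by_contra h4
  rw [coe_projIcc] at hx
  exact absurd hx (not_lt.2 (le_max_of_le_right (le_min (by linarith) (not_le.1 h4).le)))

/-- `F` is a support of the point `p` with constant `k`. -/
def LB (T : Cp Y → Cp X) (e : Y → K) (p : StoneCech X) (F : Finset K) (k : ℕ) : Prop :=
  ∀ (f g : Cp Y) (t : ℝ), 0 ≤ t → (∀ q ∈ F, ∀ᶠ y in comap e (𝓝 q), |f.1 y - g.1 y| ≤ t) →
    ∀ᶠ x in comap stoneCechUnit (𝓝 p), |(T f).1 x - (T g).1 x| ≤ k * (1 + t)

/-- The points with a support of size `n` and constant `k` inside `D`. -/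
def EE (T : Cp Y → Cp X) (e : Y → K) (D : Set K) (n k : ℕ) : Set X :=
  {x | ∃ v : Fin n → Y, (∀ i, e (v i) ∈ D) ∧ ∀ (f g : Cp Y) (t : ℝ), 0 ≤ t →
    (∀ i, |f.1 (v i) - g.1 (v i)| ≤ t) → |(T f).1 x - (T g).1 x| ≤ k * (1 + t)}

variable {T : Cp Y → Cp X} {e : Y → K} {p : StoneCech X}

lemma lb_of_closure {D : Set K} (hD : IsCompact D) {n k : ℕ}
    (h : p ∈ closure (stoneCechUnit '' EE T e D n k)) :
    ∃ F : Finset K, (F : Set K) ⊆ D ∧ LB T e p F (k + 1) := by
  classical
  have h1 : ∃ᶠ x in comap stoneCechUnit (𝓝 p), x ∈ EE T e D n k :=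
    frequently_comap.2 ((mem_closure_iff_frequently.1 h).mono fun z ⟨x, h1, h2⟩ => ⟨x, h2, h1⟩)
  have h2 : Nonempty (Fin n → Y) := let ⟨_, v, _⟩ := h1.exists; ⟨v⟩
  have h3 := frequently_mem_iff_neBot.1 h1
  let U := Ultrafilter.of (comap stoneCechUnit (𝓝 p) ⊓ 𝓟 (EE T e D n k))
  have u1 : (U : Filter X) ≤ comap stoneCechUnit (𝓝 p) := (Ultrafilter.of_le _).trans inf_le_left
  have u2 : ∀ᶠ x in (U : Filter X), x ∈ EE T e D n k :=
    le_principal_iff.1 ((Ultrafilter.of_le _).trans inf_le_right)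
  choose! v v1 v2 using fun x (hx : x ∈ EE T e D n k) => hx
  obtain ⟨q, q1, q2⟩ := (isCompact_univ_pi fun _ : Fin n => hD).ultrafilter_le_nhds
    (U.map fun x i => e (v x i)) (le_principal_iff.2 (u2.mono fun x hx i _ => v1 x hx i))
  refine ⟨Finset.univ.image q, fun z hz => ?_, fun f g t ht hfg => ?_⟩
  · obtain ⟨i, -, rfl⟩ := Finset.mem_image.1 hz
    exact q1 i trivial
  have h4 : ∀ i, ∀ᶠ x in (U : Filter X), |f.1 (v x i) - g.1 (v x i)| ≤ t := fun i =>
    (tendsto_comap_iff.2 (tendsto_pi_nhds.1 q2 i) :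
      Tendsto (fun x => v x i) U (comap e (𝓝 (q i)))).eventually
      (hfg _ (Finset.mem_image_of_mem _ (Finset.mem_univ i)))
  have h5 : ∀ᶠ x in (U : Filter X), |(T f).1 x - (T g).1 x| ≤ k * (1 + t) := by
    filter_upwards [u2, eventually_all.2 h4] with x a1 a2 using v2 x a1 f g t ht a2
  filter_upwards [freq_ev (a := fun x => |(T f).1 x - (T g).1 x|) ((T f).2.sub (T g).2).abs
    (h5.frequently.filter_mono u1)] with x hx
  push_cast
  linarith

lemma LB.inter [CompactSpace K] [T2Space K] [DecidableEq K] (he : Continuous e) {F G : Finset K}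
    {k l : ℕ} (h1 : LB T e p F k) (h2 : LB T e p G l) : LB T e p (F ∩ G) (k + l) := by
  intro f g t ht hfg
  obtain ⟨ψ, a1, a2, -⟩ := exists_continuous_zero_one_of_isClosed
    F.finite_toSet.isClosed (G \ F).finite_toSet.isClosed
    (Finset.disjoint_coe.2 Finset.disjoint_sdiff)
  let m : Cp Y := ⟨fun y => f.1 y + max 0 (min 1 (3 * ψ (e y) - 1)) * (g.1 y - f.1 y), by
    have := f.2; have := g.2; fun_prop⟩
  have b1 : ∀ q ∈ F, ∀ᶠ y in comap e (𝓝 q), m.1 y = f.1 y := fun q hq => by
    have b0 : ψ q < 1 / 3 := by rw [a1 hq]; norm_num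
    filter_upwards [tendsto_comap.eventually (ψ.continuous.continuousAt.eventually
      (gt_mem_nhds b0))] with y hy
    simp only [m]
    rw [max_eq_left (min_le_of_right_le (by linarith)), zero_mul, add_zero]
  have b2 : ∀ q ∈ G \ F, ∀ᶠ y in comap e (𝓝 q), m.1 y = g.1 y := fun q hq => by
    have b0 : 2 / 3 < ψ q := by rw [a2 hq]; norm_num
    filter_upwards [tendsto_comap.eventually (ψ.continuous.continuousAt.eventually
      (lt_mem_nhds b0))] with y hy
    simp only [m]
    rw [min_eq_left (by linarith), max_eq_right zero_le_one]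
    ring
  have c1 := h1 f m 0 le_rfl fun q hq => (b1 q hq).mono fun y hy => by simp [hy]
  have c2 := h2 m g t ht fun q hq => by
    by_cases hF : q ∈ F
    · filter_upwards [b1 q hF, hfg q (Finset.mem_inter.2 ⟨hF, hq⟩)] with y d1 d2
      rwa [d1]
    · filter_upwards [b2 q (Finset.mem_sdiff.2 ⟨hq, hF⟩)] with y d1
      simpa [d1] using ht
  filter_upwards [c1, c2] with x d1 d2
  have d3 := abs_sub_le ((T f).1 x) ((T m).1 x) ((T g).1 x)
  push_cast
  nlinarith [Nat.cast_nonneg (α := ℝ) k]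

lemma LB.mem_range (hO : IsOpenMap T) (he : IsInducing e) {F : Finset K} {k : ℕ}
    (h : LB T e p F k) (hi : Function.Injective e) (hF : (F : Set K) ⊆ range e) :
    p ∈ range (stoneCechUnit : X → StoneCech X) := by
  classical
  by_contra hp
  let g : Cp Y := ⟨0, continuous_zero⟩
  have h1 : ∀ L : Finset X, ∃ ψ : C(StoneCech X, ℝ), (∀ x ∈ L, ψ (stoneCechUnit x) = 0) ∧ ψ p = 1 := by
    intro L
    obtain ⟨ψ, a1, a2, -⟩ := exists_continuous_zero_one_of_isClosed
      (L.finite_toSet.image stoneCechUnit).isClosed (isClosed_singleton (x := p))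
      (disjoint_singleton_right.2 fun ⟨x, _, hx⟩ => hp ⟨x, hx⟩)
    exact ⟨ψ, fun x hx => a1 ⟨x, hx, rfl⟩, a2 rfl⟩
  choose ψ ψ1 ψ2 using h1
  let H : Finset X → Cp X := fun L => ⟨fun x => (T g).1 x + (4 * k + 2) * ψ L (stoneCechUnit x), by
    have := (T g).2; have := continuous_stoneCechUnit (α := X); fun_prop⟩
  have h2 : Tendsto H atTop (𝓝 (T g)) := by
    rw [tendsto_subtype_rng, tendsto_pi_nhds]
    intro x
    refine tendsto_const_nhds.congr' ?_
    filter_upwards [eventually_ge_atTop ({x} : Finset X)] with L hL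
    simp [H, ψ1 L x (hL (Finset.mem_singleton_self x))]
  have h3 : ∀ᶠ f in 𝓝 g, ∀ y ∈ e ⁻¹' (F : Set K), |f.1 y - g.1 y| < 1 := by
    rw [eventually_all_finite (F.finite_toSet.preimage hi.injOn)]
    intro y _
    have : Continuous fun f : Cp Y => |f.1 y - g.1 y| :=
      (((continuous_apply y).comp continuous_subtype_val).sub continuous_const).abs
    exact this.continuousAt.eventually (gt_mem_nhds (by simp))
  obtain ⟨L, f, f1, f2⟩ := (h2.eventually (hO.image_mem_nhds h3)).exists
  have h4 := h f g 1 zero_le_one fun q hq => by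
    obtain ⟨y, rfl⟩ := hF hq
    rw [← he.nhds_eq_comap]
    exact ((f.2.sub g.2).abs.continuousAt.eventually (gt_mem_nhds (f1 y hq))).mono
      fun _ hy => hy.le
  have h5 : ∀ᶠ x in comap stoneCechUnit (𝓝 p), 1 / 2 < ψ L (stoneCechUnit x) :=
    tendsto_comap.eventually ((ψ L).continuous.continuousAt.eventually
      (lt_mem_nhds (by rw [ψ2]; norm_num)))
  have : (comap stoneCechUnit (𝓝 p)).NeBot :=
    comap_neBot fun _ hU => denseRange_stoneCechUnit.mem_nhds hU
  obtain ⟨x, a1, a2⟩ := (h4.and h5).exists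
  rw [f2] at a1
  simp only [H, add_sub_cancel_left] at a1
  nlinarith [le_abs_self ((4 * (k : ℝ) + 2) * ψ L (stoneCechUnit x)), Nat.cast_nonneg (α := ℝ) k]

theorem main [CompactSpace K] [T2Space K] (hT : UniformContinuous T) (hO : IsOpenMap T)
    (he : IsEmbedding e) {A : ℕ → Set K} (hA : ∀ n, IsSigmaCompact (A n))
    (hr : range e = ⋂ n, A n) : ∃ B : ℕ → Set (StoneCech X), (∀ n, IsSigmaCompact (B n)) ∧
      range (stoneCechUnit : X → StoneCech X) = ⋂ n, B n := by
  classical
  choose C hC hCA using hA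
  refine ⟨fun m => ⋃ s : ℕ × ℕ × ℕ,
    closure (stoneCechUnit '' EE T e (accumulate (C m) s.1) s.2.1 s.2.2),
    fun m => isSigmaCompact_iUnion_of_isCompact _ fun s => isClosed_closure.isCompact,
    Subset.antisymm ?_ fun p hp => ?_⟩
  · rintro _ ⟨x, rfl⟩
    refine mem_iInter.2 fun m => ?_
    obtain ⟨n, k, v, hv⟩ := lip (a := fun f => (T f).1 x)
      ((Pi.uniformContinuous_proj _ x).comp (uniformContinuous_subtype_val.comp hT))
    have h1 : ∀ i, ∃ j, e (v i) ∈ C m j := fun i => by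
      have h2 : e (v i) ∈ A m := mem_iInter.1 (hr ▸ mem_range_self (v i)) m
      rw [← hCA m] at h2
      exact mem_iUnion.1 h2
    choose j hj using h1
    refine mem_iUnion.2 ⟨(Finset.univ.sup j, n, k), subset_closure ⟨x, ⟨v, fun i => ?_, hv⟩, rfl⟩⟩
    exact mem_accumulate.2 ⟨j i, Finset.le_sup (Finset.mem_univ i), hj i⟩
  · have h1 : ∀ m, ∃ (F : Finset K) (k : ℕ), (F : Set K) ⊆ A m ∧ LB T e p F k := fun m => by
      obtain ⟨s, hs⟩ := mem_iUnion.1 (mem_iInter.1 hp m)
      obtain ⟨F, h1, h2⟩ := lb_of_closure (isCompact_accumulate (hC m) s.1) hs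
      exact ⟨F, _, h1.trans (hCA m ▸ accumulate_subset_iUnion _), h2⟩
    obtain ⟨F, ⟨k, hF⟩, hmin⟩ := exists_minimalFor_of_wellFoundedLT
      (fun F : Finset K => ∃ k, LB T e p F k) Finset.card (let ⟨F, k, _, h⟩ := h1 0; ⟨F, k, h⟩)
    refine hF.mem_range hO he.isInducing he.injective ?_
    rw [hr]
    refine subset_iInter fun m => ?_
    obtain ⟨G, l, h2, h3⟩ := h1 m
    have h4 : F ∩ G = F := Finset.eq_of_subset_of_card_le Finset.inter_subset_left
      (hmin ⟨_, hF.inter he.continuous h3⟩ (Finset.card_le_card Finset.inter_subset_left))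
    exact (Finset.coe_subset.2 (Finset.inter_eq_left.1 h4)).trans h2

end Pool.Agent.Lib.MP_bdd006_gt.Unif
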